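import Pool.Agent.H88.GJ.Ck

/-!
# GJ, Uni: classes of points; uniqueness of the representation by at most two points (genus two)

`clS a S` is the class of the multiset `S` of points.
PROOF of `uni`.  `clS (S + w S') = 1`, so `∏ pI = span {el u w}`, the norm `u ^ 2 - w ^ 2 F` has degree `≤ 4`, so `w = 0`,
`S + w S' = D + w D`, `D` the points over the roots of `u`.  The rest is combinatorics of four points.
-/

set_option autoImplicit false

namespace GJ

open Polynomial HK

section defs

variable {K : Type*} [Field K]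

/-- The points of `S` lie on the curve `y ^ 2 = F(x)`. -/
def OnC {g : ℕ} (a : Fin (2 * g + 1) → K) (S : Multiset (K × K)) : Prop :=
  ∀ P ∈ S, P.2 ^ 2 = (FF a).eval P.1

/-- The hyperelliptic involution. -/
def wP (P : K × K) : K × K := (P.1, -P.2)

theorem wP_wP (P : K × K) : wP (wP P) = P := by
  unfold wP
  rw [neg_neg]

theorem wP_inj {P Q : K × K} (h : wP P = wP Q) : P = Q := by
  rw [← wP_wP P, h, wP_wP]

/-- The hyperelliptic involution of a multiset of points. -/
def wS (S : Multiset (K × K)) : Multiset (K × K) := S.map wP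

theorem onC_add {g : ℕ} (a : Fin (2 * g + 1) → K) {S T : Multiset (K × K)} :
    OnC a (S + T) ↔ OnC a S ∧ OnC a T := by
  unfold OnC
  simp only [Multiset.mem_add]
  constructor
  · intro h
    exact ⟨fun P hP => h P (Or.inl hP), fun P hP => h P (Or.inr hP)⟩
  · rintro ⟨h1, h2⟩ P (hP | hP)
    · exact h1 P hP
    · exact h2 P hP

theorem onC_cons {g : ℕ} (a : Fin (2 * g + 1) → K) {P : K × K} {T : Multiset (K × K)} :
    OnC a (P ::ₘ T) ↔ P.2 ^ 2 = (FF a).eval P.1 ∧ OnC a T := by
  unfold OnC
  simp only [Multiset.mem_cons]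
  constructor
  · intro h
    exact ⟨h P (Or.inl rfl), fun Q hQ => h Q (Or.inr hQ)⟩
  · rintro ⟨h1, h2⟩ Q (rfl | hQ)
    · exact h1
    · exact h2 Q hQ

theorem onC_zero {g : ℕ} (a : Fin (2 * g + 1) → K) : OnC a 0 := by
  intro P hP
  exact absurd hP (Multiset.notMem_zero P)

theorem onC_wS {g : ℕ} (a : Fin (2 * g + 1) → K) {S : Multiset (K × K)} (h : OnC a S) :
    OnC a (wS S) := by
  intro P hP
  obtain ⟨Q, hQ, rfl⟩ := Multiset.mem_map.1 hP
  show (-Q.2) ^ 2 = (FF a).eval Q.1
  rw [neg_sq]
  exact h Q hQ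

theorem wS_add (S T : Multiset (K × K)) : wS (S + T) = wS S + wS T := Multiset.map_add _ _ _

theorem wS_cons (P : K × K) (T : Multiset (K × K)) : wS (P ::ₘ T) = wP P ::ₘ wS T :=
  Multiset.map_cons _ _ _

theorem card_wS (S : Multiset (K × K)) : Multiset.card (wS S) = Multiset.card S :=
  Multiset.card_map _ _

end defs

variable {K : Type*} [Field K] [NeZero (2 : K)] {g : ℕ} (a : Fin (2 * g + 1) → K)
  [Fact (Function.Injective a)]

/-- The class of a multiset of points. -/
noncomputable def clS (S : Multiset (K × K)) : ClassGroup (CR (FF a)) :=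
  (S.map fun P => cl a P.1 P.2).prod

theorem clS_zero : clS a 0 = 1 := by
  unfold clS
  rw [Multiset.map_zero, Multiset.prod_zero]

theorem clS_add (S T : Multiset (K × K)) : clS a (S + T) = clS a S * clS a T := by
  unfold clS
  rw [Multiset.map_add, Multiset.prod_add]

theorem clS_cons (P : K × K) (T : Multiset (K × K)) :
    clS a (P ::ₘ T) = cl a P.1 P.2 * clS a T := by
  unfold clS
  rw [Multiset.map_cons, Multiset.prod_cons]

theorem clS_single (P : K × K) : clS a {P} = cl a P.1 P.2 := by
  unfold clS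
  rw [Multiset.map_singleton, Multiset.prod_singleton]

theorem cl_wP {P : K × K} (h : P.2 ^ 2 = (FF a).eval P.1) :
    cl a (wP P).1 (wP P).2 = (cl a P.1 P.2)⁻¹ := by
  rw [eq_inv_iff_mul_eq_one, mul_comm]
  exact cl_conj a h

theorem clS_wS {S : Multiset (K × K)} (h : OnC a S) : clS a (wS S) = (clS a S)⁻¹ := by
  induction S using Multiset.induction_on with
  | empty =>
    show clS a 0 = _
    rw [clS_zero, inv_one]
  | cons P T ih =>
    rw [onC_cons] at h
    rw [wS_cons, clS_cons, clS_cons, ih h.2, mul_inv, cl_wP a h.1]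

theorem clS_nsmul (S : Multiset (K × K)) (n : ℕ) : clS a (n • S) = clS a S ^ n := by
  induction n with
  | zero => rw [zero_smul, clS_zero, pow_zero]
  | succ n ih =>
    rw [succ_nsmul, clS_add, ih]
    exact (pow_succ _ _).symm

/-- A principal divisor of degree at most `2 g` is a sum of pairs `R + w R`. -/
theorem pairs [IsAlgClosed K] (S : Multiset (K × K)) (hS : OnC a S)
    (hc : Multiset.card S ≤ 2 * g) (h : clS a S = 1) : ∃ D : Multiset (K × K), S = D + wS D := by
  obtain ⟨u, w, h0, h1⟩ := (cl_prod_eq_one_iff a S).1 h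
  obtain ⟨T, hT, hT1, hT2⟩ := fct a u w h0
  have hST : S = T := by
    apply le_antisymm
    · exact fct_unique a T S hT hS (by rw [← hT1, h1])
    · exact fct_unique a S T hS hT (by rw [← hT1, h1])
  subst hST
  have hN0 : u ^ 2 - w ^ 2 * FF a ≠ 0 := by
    intro hN
    obtain ⟨hu, hw⟩ := par_deg u w (FF a) (cra_FF_odd a) (sub_eq_zero.1 hN)
    rcases h0 with h0 | h0
    · exact h0 hu
    · exact h0 hw
  have hdeg : (u ^ 2 - w ^ 2 * FF a).natDegree ≤ 2 * g := by
    have e1 : (u ^ 2 - w ^ 2 * FF a).natDegree = Multiset.card (u ^ 2 - w ^ 2 * FF a).roots :=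
      (IsAlgClosed.splits (u ^ 2 - w ^ 2 * FF a)).natDegree_eq_card_roots
    rw [e1, ← hT2, Multiset.card_map]
    exact hc
  have hw : w = 0 := by
    by_contra hw
    have hFF : FF a ≠ 0 := by
      intro h
      have := cra_FF_natDegree a
      rw [h, natDegree_zero] at this
      omega
    have e2 : (w ^ 2 * FF a).natDegree = 2 * w.natDegree + (2 * g + 1) := by
      rw [natDegree_mul (pow_ne_zero 2 hw) hFF, natDegree_pow, cra_FF_natDegree]
    have e3 : (u ^ 2).natDegree = 2 * u.natDegree := natDegree_pow u 2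
    rcases lt_trichotomy (u ^ 2).natDegree (w ^ 2 * FF a).natDegree with hlt | heq | hgt
    · rw [natDegree_sub_eq_right_of_natDegree_lt hlt, e2] at hdeg
      omega
    · rw [e2, e3] at heq
      omega
    · rw [natDegree_sub_eq_left_of_natDegree_lt hgt] at hdeg
      omega
  subst hw
  have hu : u ≠ 0 := by
    rcases h0 with h0 | h0
    · exact h0
    · exact absurd rfl h0
  -- the points over the roots of `u`
  have key : ∀ R : Multiset K, ∃ D : Multiset (K × K), OnC a D ∧
      (D.map fun P => pI (FF a) P.1 P.2).prod * ((wS D).map fun P => pI (FF a) P.1 P.2).prod =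
        Ideal.span {el (FF a) (R.map fun r => X - C r).prod 0} := by
    intro R
    induction R using Multiset.induction_on with
    | empty =>
      refine ⟨0, onC_zero a, ?_⟩
      show (Multiset.map _ (0 : Multiset (K × K))).prod * (Multiset.map _ (0 : Multiset (K × K))).prod = _
      rw [Multiset.map_zero, Multiset.map_zero, Multiset.prod_zero, Multiset.prod_zero, el_one,
        one_mul, Ideal.span_singleton_one, Ideal.one_eq_top]
    | cons r R ih =>
      obtain ⟨D, hD, hD'⟩ := ih
      obtain ⟨y, hy⟩ := IsAlgClosed.exists_pow_nat_eq ((FF a).eval r) (n := 2) two_pos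
      refine ⟨(r, y) ::ₘ D, (onC_cons a).2 ⟨hy, hD⟩, ?_⟩
      rw [wS_cons]
      simp only [Multiset.map_cons, Multiset.prod_cons]
      have e1 : el (FF a) ((X - C r) * (R.map fun r => X - C r).prod) 0 =
          el (FF a) (X - C r) 0 * el (FF a) (R.map fun r => X - C r).prod 0 := by
        rw [el_mul]; simp
      rw [e1, ← Ideal.span_singleton_mul_span_singleton, ← pI_conj a hy, ← hD']
      show _ = pI (FF a) r y * pI (FF a) r (-y) * _
      simp only [wP]
      ring
  obtain ⟨D, hD, hD'⟩ := key u.roots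
  refine ⟨D, ?_⟩
  have hsp : Ideal.span {el (FF a) (u.roots.map fun r => X - C r).prod 0} =
      Ideal.span {el (FF a) u 0} := by
    have e1 : u = C u.leadingCoeff * (u.roots.map fun r => X - C r).prod := by
      have := (IsAlgClosed.splits u).eq_prod_roots
      exact this
    have e2 : el (FF a) u 0 = el (FF a) (C u.leadingCoeff) 0 *
        el (FF a) (u.roots.map fun r => X - C r).prod 0 := by
      rw [el_mul]
      nth_rewrite 1 [e1]
      simp
    have hu2 : IsUnit (el (FF a) (C u.leadingCoeff) 0) := by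
      refine IsUnit.of_mul_eq_one (el (FF a) (C u.leadingCoeff⁻¹) 0) ?_
      rw [el_mul]
      simp only [mul_zero, zero_mul, add_zero, ← C_mul]
      rw [mul_inv_cancel₀ (leadingCoeff_ne_zero.2 hu), C_1, el_one]
    rw [e2]
    exact (Ideal.span_singleton_mul_left_unit hu2 _).symm
  have hprod : ((D + wS D).map fun P => pI (FF a) P.1 P.2).prod = Ideal.span {el (FF a) u 0} := by
    rw [Multiset.map_add, Multiset.prod_add, hD', hsp]
  have hDD : OnC a (D + wS D) := (onC_add a).2 ⟨hD, onC_wS a hD⟩
  apply le_antisymm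
  · exact fct_unique a (D + wS D) S hDD hS (by rw [hprod, ← hT1])
  · exact fct_unique a S (D + wS D) hS hDD (by rw [hprod, ← hT1])

omit [NeZero (2 : K)] in
private theorem pr_erase {D : Multiset (K × K)} {P : K × K} (h : P ∈ D + wS D) :
    ∃ D' : Multiset (K × K), D + wS D = P ::ₘ wP P ::ₘ (D' + wS D') := by
  rcases Multiset.mem_add.1 h with h | h
  · obtain ⟨D', rfl⟩ := Multiset.exists_cons_of_mem h
    refine ⟨D', ?_⟩
    rw [wS_cons, Multiset.cons_add, Multiset.add_cons]
  · obtain ⟨Q, hQ, rfl⟩ := Multiset.mem_map.1 h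
    obtain ⟨D', rfl⟩ := Multiset.exists_cons_of_mem hQ
    refine ⟨D', ?_⟩
    rw [wS_cons, Multiset.cons_add, Multiset.add_cons, wP_wP, Multiset.cons_swap]

omit [NeZero (2 : K)] in
private theorem pr_two {P Q : K × K} {D : Multiset (K × K)} (h : ({P, wP Q} : Multiset (K × K)) = D + wS D) :
    P = Q := by
  have hP : P ∈ D + wS D := by rw [← h]; simp
  obtain ⟨D', hD'⟩ := pr_erase hP
  rw [hD'] at h
  have h2 : ({P, wP Q} : Multiset (K × K)) = P ::ₘ (wP Q ::ₘ 0) := rfl
  rw [h2, Multiset.cons_inj_right] at h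
  have h3 := congrArg Multiset.card h
  simp only [Multiset.card_cons, Multiset.card_zero, Multiset.card_add, card_wS] at h3
  have h4 : D' = 0 := Multiset.card_eq_zero.1 (by omega)
  subst h4
  have h5 : wS (0 : Multiset (K × K)) = 0 := rfl
  rw [h5, add_zero] at h
  have h6 : wP Q = wP P := by
    have := (Multiset.cons_eq_cons.1 h)
    rcases this with ⟨h7, _⟩ | ⟨_, cs, h8, _⟩
    · exact h7
    · exact absurd h8.symm (Multiset.cons_ne_zero)
  exact (wP_inj h6).symm

/-- Uniqueness of the representation of a nontrivial class by at most two points. -/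
theorem uni [IsAlgClosed K] (hg : g = 2) (S S' : Multiset (K × K)) (hS : OnC a S) (hS' : OnC a S')
    (hc : Multiset.card S ≤ 2) (hc' : Multiset.card S' ≤ 2) (h : clS a S = clS a S')
    (h1 : clS a S ≠ 1) : S = S' := by
  have e1 : clS a (S + wS S') = 1 := by
    rw [clS_add, clS_wS a hS', h, mul_inv_cancel]
  have hon : OnC a (S + wS S') := (onC_add a).2 ⟨hS, onC_wS a hS'⟩
  obtain ⟨D, hD⟩ := pairs a (S + wS S') hon (by
    rw [Multiset.card_add, card_wS]; omega) e1
  have hcard : Multiset.card S + Multiset.card S' = 2 * Multiset.card D := by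
    have := congrArg Multiset.card hD
    rw [Multiset.card_add, Multiset.card_add, card_wS, card_wS] at this
    omega
  -- the class of a pair is trivial
  have hpair : ∀ P : K × K, P.2 ^ 2 = (FF a).eval P.1 → clS a {P, wP P} = 1 := by
    intro P hP
    have e : ({P, wP P} : Multiset (K × K)) = P ::ₘ {wP P} := rfl
    rw [e, clS_cons, clS_single, cl_wP a hP, mul_inv_cancel]
  have hcS : Multiset.card S ≠ 0 := by
    intro h0
    rw [Multiset.card_eq_zero] at h0
    subst h0
    exact h1 (clS_zero a)
  rcases Nat.lt_or_ge (Multiset.card S) 2 with hlt | hge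
  · -- one point
    have hS1 : Multiset.card S = 1 := by omega
    have hS1' : Multiset.card S' = 1 := by omega
    obtain ⟨P, rfl⟩ := Multiset.card_eq_one.1 hS1
    obtain ⟨Q, rfl⟩ := Multiset.card_eq_one.1 hS1'
    have e2 : ({P} + wS {Q} : Multiset (K × K)) = {P, wP Q} := rfl
    rw [e2] at hD
    rw [pr_two hD]
  · have hS2 : Multiset.card S = 2 := by omega
    obtain ⟨A, B, rfl⟩ := Multiset.card_eq_two.1 hS2
    have hA : A.2 ^ 2 = (FF a).eval A.1 := hS A (by simp)
    have hAB : wP A ≠ B := by
      rintro rfl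
      exact h1 (hpair A hA)
    rcases Nat.lt_or_ge (Multiset.card S') 2 with hlt | hge'
    · -- `S'` is empty
      have h0 : S' = 0 := Multiset.card_eq_zero.1 (by omega)
      subst h0
      exact absurd (h.trans (clS_zero a)) h1
    · have hS2' : Multiset.card S' = 2 := by omega
      obtain ⟨A', B', rfl⟩ := Multiset.card_eq_two.1 hS2'
      have e2 : ({A, B} + wS {A', B'} : Multiset (K × K)) = A ::ₘ (B ::ₘ wP A' ::ₘ wP B' ::ₘ 0) := rfl
      have hmem : A ∈ D + wS D := by rw [← hD, e2]; simp
      obtain ⟨D', hD'⟩ := pr_erase hmem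
      rw [e2, hD', Multiset.cons_inj_right] at hD
      have hm : wP A ∈ (B ::ₘ wP A' ::ₘ wP B' ::ₘ 0 : Multiset (K × K)) := by
        rw [hD]; exact Multiset.mem_cons_self _ _
      rw [Multiset.mem_cons, Multiset.mem_cons, Multiset.mem_cons] at hm
      rcases hm with hm | hm | hm | hm
      · exact absurd hm hAB
      · have hAA : A = A' := wP_inj hm
        subst hAA
        rw [Multiset.cons_swap, Multiset.cons_inj_right] at hD
        have := pr_two (P := B) (Q := B') hD
        rw [this]
      · have hAA : A = B' := wP_inj hm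
        subst hAA
        have e3 : (B ::ₘ wP A' ::ₘ wP A ::ₘ 0 : Multiset (K × K)) = wP A ::ₘ (B ::ₘ wP A' ::ₘ 0) := by
          rw [Multiset.cons_swap (wP A') (wP A), Multiset.cons_swap B (wP A)]
        rw [e3, Multiset.cons_inj_right] at hD
        have := pr_two (P := B) (Q := A') hD
        rw [this]
        exact Multiset.pair_comm _ _
      · exact absurd hm (Multiset.notMem_zero _)

end GJ
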