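import Pool.Agent.H88.GJ.Dk
import Pool.Agent.H95.HK.CRc

/-!
# GJ, Ck: points, factorization of principal ideals and the class group in characteristic `≠ 2`

The proofs are those of `H95/HK/CRb` and `H95/HK/CRc` (helper95), with `CharZero` replaced by `2 ≠ 0`.
-/

set_option autoImplicit false

namespace GJ

open Polynomial HK

variable {K : Type*} [Field K]

section
variable (F : K[X])

private theorem CRb_decomp (x : K) (u : K[X]) : ∃ u' : K[X], u = C (u.eval x) + (X - C x) * u' := by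
  obtain ⟨u', hu'⟩ := X_sub_C_dvd_sub_C_eval (p := u) (a := x)
  exact ⟨u', by rw [← hu']; ring⟩

private theorem CRb_mul_conj (y : K) :
    el F (C (-y)) 1 * el F (C y) 1 = el F (F - C (y ^ 2)) 0 := by
  rw [el_mul]
  congr 1
  · rw [C_neg, C_pow]; ring
  · rw [C_neg]; ring

private theorem CRb_conj_dvd {x y : K} (h : y ^ 2 = F.eval x) :
    ∃ G : K[X], F = C (y ^ 2) + (X - C x) * G ∧
      el F (C (-y)) 1 * el F (C y) 1 = el F (X - C x) 0 * el F G 0 := by
  obtain ⟨G, hG⟩ := CRb_decomp x F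
  rw [← h] at hG
  refine ⟨G, hG, ?_⟩
  rw [CRb_mul_conj, el_mul]
  congr 1
  · nth_rewrite 1 [hG]; ring
  · ring

end

variable [NeZero (2 : K)] {g : ℕ} (a : Fin (2 * g + 1) → K) [Fact (Function.Injective a)]

theorem pI_conj
    {x y : K} (h : y ^ 2 = (FF a).eval x) :
    pI (FF a) x y * pI (FF a) x (-y) = Ideal.span {el (FF a) (X - C x) 0} := by
  obtain ⟨G, hG0, hG⟩ := CRb_conj_dvd (FF a) h
  unfold pI
  rw [neg_neg, Ideal.span_pair_mul_span_pair]
  apply le_antisymm
  · rw [Ideal.span_le]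
    intro r hr
    rw [SetLike.mem_coe, Ideal.mem_span_singleton]
    simp only [Set.mem_insert_iff, Set.mem_singleton_iff] at hr
    rcases hr with rfl | rfl | rfl | rfl
    · exact dvd_mul_right _ _
    · exact dvd_mul_right _ _
    · exact dvd_mul_left _ _
    · rw [hG]
      exact dvd_mul_right _ _
  · rw [Ideal.span_singleton_le_iff_mem]
    set J : Ideal (CR (FF a)) := Ideal.span {el (FF a) (X - C x) 0 * el (FF a) (X - C x) 0,
      el (FF a) (X - C x) 0 * el (FF a) (C y) 1, el (FF a) (C (-y)) 1 * el (FF a) (X - C x) 0,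
      el (FF a) (C (-y)) 1 * el (FF a) (C y) 1} with hJ
    have g1 : el (FF a) (X - C x) 0 * el (FF a) (X - C x) 0 ∈ J :=
      Ideal.subset_span (by simp)
    have g2 : el (FF a) (X - C x) 0 * el (FF a) (C y) 1 ∈ J :=
      Ideal.subset_span (by simp)
    have g3 : el (FF a) (C (-y)) 1 * el (FF a) (X - C x) 0 ∈ J :=
      Ideal.subset_span (by simp)
    have g4 : el (FF a) (C (-y)) 1 * el (FF a) (C y) 1 ∈ J :=
      Ideal.subset_span (by simp)
    by_cases hy : y = 0
    · subst hy
      have hroot : (FF a) = (X - C x) * G := by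
        rw [hG0]
        simp
      have hsep : (FF a).Separable := by
        unfold FF
        rw [separable_prod_X_sub_C_iff]
        exact Fact.out
      have hGx : G.eval x ≠ 0 := by
        intro h0
        obtain ⟨G', hG'⟩ := dvd_iff_isRoot.mpr h0
        have hsq : (X - C x) * (X - C x) ∣ FF a := ⟨G', by rw [hroot, hG']; ring⟩
        exact not_isUnit_X_sub_C x (hsep.squarefree _ hsq)
      have hcop : IsCoprime (X - C x) G := by
        refine (irreducible_X_sub_C x).coprime_iff_not_dvd.mpr ?_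
        intro hd
        exact hGx (dvd_iff_isRoot.mp hd)
      obtain ⟨A, B, hAB⟩ := hcop
      have key : el (FF a) (X - C x) 0 =
          el (FF a) A 0 * (el (FF a) (X - C x) 0 * el (FF a) (X - C x) 0) +
          el (FF a) B 0 * (el (FF a) (C (-0)) 1 * el (FF a) (C 0) 1) := by
        rw [hG, el_mul, el_mul, el_mul, el_mul, el_add]
        congr 1
        · linear_combination (-(X - C x)) * hAB
        · ring
      rw [key]
      exact Ideal.add_mem _ (Ideal.mul_mem_left _ _ g1) (Ideal.mul_mem_left _ _ g4)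
    · have key : el (FF a) (X - C x) 0 = el (FF a) (C (1 / (2 * y))) 0 *
          (el (FF a) (X - C x) 0 * el (FF a) (C y) 1) +
          el (FF a) (C (-(1 / (2 * y)))) 0 * (el (FF a) (C (-y)) 1 * el (FF a) (X - C x) 0) := by
        rw [el_mul, el_mul, el_mul, el_mul, el_add]
        have e1 : (C (1 / (2 * y)) : K[X]) * C y * 2 = 1 := by
          rw [← C_mul, ← C_ofNat, ← C_mul, ← C_1]
          congr 1
          field_simp
        congr 1
        · rw [C_neg, C_neg]
          linear_combination (-(X - C x)) * e1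
        · rw [C_neg, C_neg]
          ring
      rw [key]
      exact Ideal.add_mem _ (Ideal.mul_mem_left _ _ g2) (Ideal.mul_mem_left _ _ g3)


theorem Ck_lift (M : Multiset (Ideal (CR (FF a))))
    (hM : ∀ P ∈ M, ∃ x y : K, y ^ 2 = (FF a).eval x ∧ P = pI (FF a) x y) :
    ∃ S : Multiset (K × K), (∀ P ∈ S, P.2 ^ 2 = (FF a).eval P.1) ∧
      S.map (fun P => pI (FF a) P.1 P.2) = M := by
  induction M using Multiset.induction_on with
  | empty => exact ⟨0, by simp, rfl⟩
  | cons P M ih =>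
    obtain ⟨S, hS, hSM⟩ := ih fun P hP => hM P (Multiset.mem_cons_of_mem hP)
    obtain ⟨x, y, hxy, hP⟩ := hM P (Multiset.mem_cons_self _ _)
    refine ⟨(x, y) ::ₘ S, ?_, ?_⟩
    · intro Q hQ
      rcases Multiset.mem_cons.1 hQ with rfl | hQ
      · exact hxy
      · exact hS Q hQ
    · rw [Multiset.map_cons, hSM, hP]

theorem Ck_prod_map (S : Multiset (K × K)) (hS : ∀ P ∈ S, P.2 ^ 2 = (FF a).eval P.1) :
    (S.map fun P => pI (FF a) P.1 P.2).prod * (S.map fun P => pI (FF a) P.1 (-P.2)).prod =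
      Ideal.span {el (FF a) (S.map fun P => X - C P.1).prod 0} ∧
    Ideal.map (CRc_cj (FF a)) (S.map fun P => pI (FF a) P.1 P.2).prod =
      (S.map fun P => pI (FF a) P.1 (-P.2)).prod := by
  induction S using Multiset.induction_on with
  | empty =>
    constructor
    · rw [Multiset.map_zero, Multiset.map_zero, Multiset.map_zero, Multiset.prod_zero,
        Multiset.prod_zero, el_one, one_mul, Ideal.span_singleton_one, Ideal.one_eq_top]
    · simp only [Multiset.map_zero, Multiset.prod_zero, Ideal.one_eq_top]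
      exact Ideal.map_top _
  | cons P S ih =>
    obtain ⟨h1, h2⟩ := ih fun Q hQ => hS Q (Multiset.mem_cons_of_mem hQ)
    have hP := hS P (Multiset.mem_cons_self _ _)
    constructor
    · simp only [Multiset.map_cons, Multiset.prod_cons]
      have e1 : el (FF a) ((X - C P.1) * (S.map fun P => X - C P.1).prod) 0 =
          el (FF a) (X - C P.1) 0 * el (FF a) (S.map fun P => X - C P.1).prod 0 := by
        rw [el_mul]; simp
      rw [e1, ← Ideal.span_singleton_mul_span_singleton, ← pI_conj a hP, ← h1]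
      ring
    · simp only [Multiset.map_cons, Multiset.prod_cons]
      rw [Ideal.map_mul, CRc_map_pI (FF a) hP, h2]

theorem fct [IsAlgClosed K] (u w : K[X]) (h0 : u ≠ 0 ∨ w ≠ 0) :
    ∃ S : Multiset (K × K), (∀ P ∈ S, P.2 ^ 2 = (FF a).eval P.1) ∧
      Ideal.span {el (FF a) u w} = (S.map fun P => pI (FF a) P.1 P.2).prod ∧
      S.map Prod.fst = (u ^ 2 - w ^ 2 * FF a).roots := by
  have hne : el (FF a) u w ≠ 0 := by
    intro h
    rw [← el_zero] at h
    obtain ⟨h1, h2⟩ := el_inj _ h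
    rcases h0 with h0 | h0
    · exact h0 h1
    · exact h0 h2
  have hI : Ideal.span {el (FF a) u w} ≠ ⊥ := by
    rw [Ne, Ideal.span_singleton_eq_bot]
    exact hne
  have hM : ∀ P ∈ UniqueFactorizationMonoid.normalizedFactors (Ideal.span {el (FF a) u w}),
      ∃ x y : K, y ^ 2 = (FF a).eval x ∧ P = pI (FF a) x y := by
    intro P hP
    have hpr := UniqueFactorizationMonoid.prime_of_normalized_factor P hP
    have hPb : P ≠ ⊥ := hpr.ne_zero
    have hPp : P.IsPrime := Ideal.isPrime_of_prime hpr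
    exact exists_pI (FF a) P (hPp.isMaximal hPb) hPb
  obtain ⟨S, hS, hSM⟩ := Ck_lift a _ hM
  have hprod : Ideal.span {el (FF a) u w} = (S.map fun P => pI (FF a) P.1 P.2).prod := by
    rw [hSM]
    exact (Ideal.prod_normalizedFactors_eq_self hI).symm
  refine ⟨S, hS, hprod, ?_⟩
  obtain ⟨h1, h2⟩ := Ck_prod_map a S hS
  rw [← hprod] at h1 h2
  rw [← h2, Ideal.map_span, Set.image_singleton, CRc_cj_el,
    Ideal.span_singleton_mul_span_singleton, el_mul] at h1
  have e1 : u * u + w * -w * FF a = u ^ 2 - w ^ 2 * FF a := by ring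
  have e2 : u * -w + w * u = 0 := by ring
  rw [e1, e2] at h1
  have hd1 : u ^ 2 - w ^ 2 * FF a ∣ (S.map fun P => X - C P.1).prod :=
    CRc_dvd (FF a) (Ideal.span_singleton_le_span_singleton.1 h1.ge)
  have hd2 : (S.map fun P => X - C P.1).prod ∣ u ^ 2 - w ^ 2 * FF a :=
    CRc_dvd (FF a) (Ideal.span_singleton_le_span_singleton.1 h1.le)
  have hroots : ((S.map fun P => X - C P.1).prod : K[X]).roots = S.map Prod.fst := by
    have := roots_multiset_prod_X_sub_C (S.map Prod.fst)
    rw [Multiset.map_map] at this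
    exact this
  have hQ0 : ((S.map fun P => X - C P.1).prod : K[X]) ≠ 0 := by
    refine Multiset.prod_ne_zero fun h => ?_
    obtain ⟨P, _, hP⟩ := Multiset.mem_map.1 h
    exact X_sub_C_ne_zero _ hP
  have hN0 : u ^ 2 - w ^ 2 * FF a ≠ 0 := ne_zero_of_dvd_ne_zero hQ0 hd1
  rw [← hroots]
  exact le_antisymm (roots.le_of_dvd hN0 hd2) (roots.le_of_dvd hQ0 hd1)

theorem fct_unique (S S' : Multiset (K × K)) (hS : ∀ P ∈ S, P.2 ^ 2 = (FF a).eval P.1)
    (hS' : ∀ P ∈ S', P.2 ^ 2 = (FF a).eval P.1)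
    (h : (S.map fun P => pI (FF a) P.1 P.2).prod ≤ (S'.map fun P => pI (FF a) P.1 P.2).prod) :
    S' ≤ S := by
  induction S' using Multiset.induction_on generalizing S with
  | empty => exact Multiset.zero_le S
  | cons P T ih =>
    have hP := hS' P (Multiset.mem_cons_self _ _)
    have hmax := pI_isMaximal (FF a) hP
    rw [Multiset.map_cons, Multiset.prod_cons] at h
    have h1 : (S.map fun P => pI (FF a) P.1 P.2).prod ≤ pI (FF a) P.1 P.2 :=
      h.trans Ideal.mul_le_left
    rw [Ideal.IsPrime.multiset_prod_le hmax.isPrime] at h1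
    obtain ⟨J, hJ, hJP⟩ := h1
    obtain ⟨Q, hQ, rfl⟩ := Multiset.mem_map.1 hJ
    have hQmax := pI_isMaximal (FF a) (hS Q hQ)
    have e := hQmax.eq_of_le hmax.ne_top hJP
    have e2 := pI_inj (FF a) (hS Q hQ) hP e
    have hQP : Q = P := Prod.ext e2.1 e2.2
    subst hQP
    obtain ⟨S₀, rfl⟩ := Multiset.exists_cons_of_mem hQ
    rw [Multiset.map_cons, Multiset.prod_cons] at h
    have h2 : (S₀.map fun P => pI (FF a) P.1 P.2).prod ≤ (T.map fun P => pI (FF a) P.1 P.2).prod := by
      rw [← Ideal.dvd_iff_le] at h ⊢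
      exact (mul_dvd_mul_iff_left (pI_ne_bot (FF a) Q.1 Q.2)).1 h
    exact Multiset.cons_le_cons Q (ih S₀ (fun P hP => hS P (Multiset.mem_cons_of_mem hP))
      (fun P hP => hS' P (Multiset.mem_cons_of_mem hP)) h2)

/-- The class of the ideal of the point `(x, y)`. -/
noncomputable def cl (x y : K) : ClassGroup (CR (FF a)) :=
  ClassGroup.mk0 ⟨pI (FF a) x y, mem_nonZeroDivisors_of_ne_zero (pI_ne_bot (FF a) x y)⟩

theorem cl_conj {x y : K} (h : y ^ 2 = (FF a).eval x) : cl a x y * cl a x (-y) = 1 := by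
  unfold cl
  rw [← map_mul]
  have e : (⟨pI (FF a) x y, mem_nonZeroDivisors_of_ne_zero (pI_ne_bot (FF a) x y)⟩ :
      nonZeroDivisors (Ideal (CR (FF a)))) *
      ⟨pI (FF a) x (-y), mem_nonZeroDivisors_of_ne_zero (pI_ne_bot (FF a) x (-y))⟩ =
      ⟨pI (FF a) x y * pI (FF a) x (-y), mul_mem
        (mem_nonZeroDivisors_of_ne_zero (pI_ne_bot (FF a) x y))
        (mem_nonZeroDivisors_of_ne_zero (pI_ne_bot (FF a) x (-y)))⟩ := rfl
  rw [e, ClassGroup.mk0_eq_one_iff, pI_conj a h]
  exact ⟨⟨_, rfl⟩⟩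

theorem cl_prod_eq_one_iff (S : Multiset (K × K)) :
    (S.map fun P => cl a P.1 P.2).prod = 1 ↔
      ∃ u w : K[X], (u ≠ 0 ∨ w ≠ 0) ∧
        (S.map fun P => pI (FF a) P.1 P.2).prod = Ideal.span {el (FF a) u w} := by
  set sub : K × K → nonZeroDivisors (Ideal (CR (FF a))) := fun P =>
    ⟨pI (FF a) P.1 P.2, mem_nonZeroDivisors_of_ne_zero (pI_ne_bot (FF a) P.1 P.2)⟩ with hsub
  have e1 : (S.map fun P => cl a P.1 P.2).prod = ClassGroup.mk0 (S.map sub).prod := by
    rw [map_multiset_prod, Multiset.map_map]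
    rfl
  have e2 : (((S.map sub).prod : nonZeroDivisors (Ideal (CR (FF a)))) : Ideal (CR (FF a))) =
      (S.map fun P => pI (FF a) P.1 P.2).prod := by
    rw [Submonoid.coe_multiset_prod, Multiset.map_map]
    rfl
  have e3 : ClassGroup.mk0 (S.map sub).prod = 1 ↔
      ((S.map fun P => pI (FF a) P.1 P.2).prod).IsPrincipal := by
    rw [← e2]
    exact ClassGroup.mk0_eq_one_iff (S.map sub).prod.2
  rw [e1, e3]
  constructor
  · intro hp
    obtain ⟨⟨z, hz⟩⟩ := hp
    obtain ⟨u, w, rfl⟩ := el_surj (FF a) z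
    refine ⟨u, w, ?_, hz⟩
    by_contra hc
    push Not at hc
    rw [hc.1, hc.2, el_zero] at hz
    have h0 : (S.map fun P => pI (FF a) P.1 P.2).prod = ⊥ := by
      rw [hz]
      simp
    rw [← e2] at h0
    exact nonZeroDivisors.ne_zero (S.map sub).prod.2 h0
  · rintro ⟨u, w, _, hz⟩
    exact ⟨⟨_, hz⟩⟩

end GJ
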