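import Pool.Agent.H88.GJ.Lx
import Pool.Agent.H98.GJ.Red
import Pool.Agent.H84.GJ.Fro
import Pool.Agent.H84.GJ.Color
import Pool.Agent.H84.GJ.Quad
import Pool.Agent.H31.GJ.Rep
import Pool.Agent.H31.GJ.Gal
import Pool.Agent.H10.GJ.Cmb
import Pool.Agent.H10.GJ.FinS
import Pool.Agent.H10.GJ.Four
import Pool.Agent.H83.EC.Emb

/-!
# GJ, Core: a division point with a large Galois orbit

Let `c = clS a Sc` be a class of infinite order.  There are a class `r = clS a S`, `|S| ≤ 2`, with `r ^ N = c ^ M`, a point `T` of `S` and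
an automorphism `σ` that fixes given numbers, such that `cl (σ T) / cl T` is not a torsion class.

PROOF: see the headers of the lemmas.  `exists_emb`: `p ≥ 3`, `ι : AK → PadicAlgCl p` (everything given is in `ℚ_p`, good reduction).  `t n` a tower
of classes of order `2 ^ (n + 1)`, reduction `ρ`; for suitable `j`, `k0`, `m` the classes `ρ (t j * c ^ (k0 + m n))` are not classes of points with
abscissae in `𝔽_p`.  `S n` represents `t j * c ^ (k0 + m n)`, `T n ∈ S n` is integral with abscissa outside of `𝔽_p`.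
-/

set_option autoImplicit false

namespace GJ

open Polynomial HK

variable (a : Fin (2 * 2 + 1) → AK) [Fact (Function.Injective a)]

/-- two close points cannot both have torsion Galois differences -/
theorem two_close {p : ℕ} [Fact p.Prime] {ι : AK →+* PadicAlgCl p} {v : Valuation AK NNReal}
    (hv : IsVal p ι v) (h3 : 3 ≤ p) (ha : ∀ i, v (a i) ≤ 1)
    (hd : ∀ i j, i ≠ j → v (a i - a j) = 1) (haQ : ∀ i, ι (a i) ∈ EC.Qp p)
    (P P' : AK × AK) (hP : P.2 ^ 2 = (FF a).eval P.1) (hP' : P'.2 ^ 2 = (FF a).eval P'.1)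
    (h1 : v P.1 ≤ 1) (hx : v (P.1 ^ p - P.1) = 1) (hu : v P.2 = 1)
    (hne : P' ≠ P) (hc1 : ‖ι (P'.1 - P.1)‖ ≤ (p : ℝ)⁻¹) (hc2 : v (P'.2 - P.2) < 1) :
    ∃ (s : PadicAlgCl p ≃ₐ[ℚ_[p]] PadicAlgCl p) (s0 : AK ≃ₐ[ℚ] AK), (∀ x, ι (s0 x) = s (ι x)) ∧
      ((∀ m, 0 < m → (cl a (s0 P.1) (s0 P.2) * (cl a P.1 P.2)⁻¹) ^ m ≠ 1) ∨
       (∀ m, 0 < m → (cl a (s0 P'.1) (s0 P'.2) * (cl a P'.1 P'.2)⁻¹) ^ m ≠ 1)) := by
  have h2 := v_two_eq h3 hv
  have hxn : ‖ι P.1 ^ p - ι P.1‖ = 1 := by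
    rw [← map_pow, ← map_sub]
    exact (val_eq_one hv).1 hx
  obtain ⟨s, hs⟩ := fro p (ι P.1) ((val_le_one hv).1 h1) hxn
  obtain ⟨s0, hs0⟩ := restr p ι s
  refine ⟨s, s0, hs0, ?_⟩
  by_contra hcon
  push Not at hcon
  obtain ⟨⟨m, hm, hm1⟩, ⟨m', hm', hm1'⟩⟩ := hcon
  have hvs : ∀ x, v (s0 x) = v x := by
    intro x
    rw [hv, hv, hs0]
    apply NNReal.eq
    rw [coe_nnnorm, coe_nnnorm]
    exact norm_gal p s (ι x)
  have hsa : ∀ i, s0 (a i) = a i := by
    intro i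
    apply ι.injective
    rw [hs0]
    obtain ⟨y, hy⟩ := (EC.mem_Qp p).1 (haQ i)
    rw [← hy]
    exact s.commutes y
  have hcurve : ∀ R : AK × AK, R.2 ^ 2 = (FF a).eval R.1 →
      (s0 R.2) ^ 2 = (FF a).eval (s0 R.1) := by
    intro R hR
    rw [← map_pow, hR]
    unfold FF
    rw [eval_prod, eval_prod, map_prod]
    refine Finset.prod_congr rfl fun i _ => ?_
    rw [eval_sub, eval_sub, eval_X, eval_C, eval_X, eval_C, map_sub, hsa]
  have hfst : P'.1 ≠ P.1 := by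
    intro h
    exact hne (eq_of_fst h2 hP hP' hu hc2 h)
  have hQ := hcurve P hP
  have hQ' := hcurve P' hP'
  have e1 : v (P.1 - s0 P.1) = 1 := by
    rw [← Valuation.map_neg, neg_sub, val_eq_one hv, map_sub, hs0]
    exact hs
  have hsub : ∀ x y : AK, v (s0 x - s0 y) = v (x - y) := by
    intro x y
    rw [← map_sub, hvs]
  have hsm : ∀ j : ℕ, 2 ≤ j → v (P'.1 - P.1) ^ (j - 1) < v (j : AK) :=
    fun j hj => small h3 hv hc1 j hj
  refine lemX v a h2 ha hd P P' (s0 P.1, s0 P.2) (s0 P'.1, s0 P'.2) ?_ h1 ?_ hu ?_ hc2 ?_ e1 hfst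
    ?_ hsm ?_ (m * m') (Nat.mul_pos hm hm') ?_
  · intro R hR
    simp only [Multiset.insert_eq_cons, Multiset.mem_cons, Multiset.mem_singleton] at hR
    rcases hR with rfl | rfl | rfl | rfl
    · exact hP
    · exact hP'
    · exact hQ
    · exact hQ'
  · show v (s0 P.1) ≤ 1
    rw [hvs]
    exact h1
  · show v (s0 P.2) = 1
    rw [hvs]
    exact hu
  · show v (s0 P'.2 - s0 P.2) < 1
    rw [hsub]
    exact hc2
  · show s0 P'.1 ≠ s0 P.1
    intro h
    exact hfst (s0.injective h)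
  · intro j hj
    show v (s0 P'.1 - s0 P.1) ^ (j - 1) < v (j : AK)
    rw [hsub]
    exact hsm j hj
  · have e2 : clS a {P', (s0 P.1, s0 P.2), wP P, wP (s0 P'.1, s0 P'.2)} =
        (cl a (s0 P.1) (s0 P.2) * (cl a P.1 P.2)⁻¹) *
          (cl a (s0 P'.1) (s0 P'.2) * (cl a P'.1 P'.2)⁻¹)⁻¹ := by
      have e3 : ({P', (s0 P.1, s0 P.2), wP P, wP (s0 P'.1, s0 P'.2)} : Multiset (AK × AK)) =
          P' ::ₘ (s0 P.1, s0 P.2) ::ₘ wP P ::ₘ {wP (s0 P'.1, s0 P'.2)} := rfl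
      rw [e3, clS_cons, clS_cons, clS_cons, clS_single, cl_wP a hP, cl_wP a hQ', mul_inv, inv_inv]
      show cl a P'.1 P'.2 * (cl a (s0 P.1) (s0 P.2) * ((cl a P.1 P.2)⁻¹ *
        (cl a (s0 P'.1) (s0 P'.2))⁻¹)) = _
      generalize cl a P'.1 P'.2 = A
      generalize cl a (s0 P.1) (s0 P.2) = B
      generalize cl a P.1 P.2 = D
      generalize cl a (s0 P'.1) (s0 P'.2) = E
      rw [mul_comm E⁻¹ A]
      rw [mul_left_comm A B, mul_left_comm A D⁻¹, ← mul_assoc]
    rw [clS_nsmul, e2, mul_pow, inv_pow, pow_mul, hm1, mul_comm m m', pow_mul, hm1', one_pow,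
      one_pow, inv_one, mul_one]

/-- a power of the first coordinates: not all reductions are in the prime field -/
theorem exists_T {p : ℕ} [hp : Fact p.Prime] {ι : AK →+* PadicAlgCl p} {v : Valuation AK NNReal}
    (hv : IsVal p ι v) (ha : ∀ i, v (a i) ≤ 1)
    [Fact (Function.Injective (ra v a))] [NeZero (2 : RF v)]
    (S : Multiset (AK × AK)) (hS : OnC a S) (hc : Multiset.card S ≤ 2)
    (h : clS (ra v a) (redS v S) ∉ {c : ClassGroup (CR (FF (ra v a))) | ∃ S, OnC (ra v a) S ∧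
      Multiset.card S ≤ 2 ∧ (∀ P ∈ S, P.1 ^ p = P.1) ∧ clS (ra v a) S = c}) :
    ∃ T ∈ S, v T.1 ≤ 1 ∧ v (T.1 ^ p - T.1) = 1 := by
  by_contra hcon
  push Not at hcon
  apply h
  refine ⟨redS v S, onC_redS v ha hS, ?_, ?_, rfl⟩
  · unfold redS
    rw [Multiset.card_map]
    exact (Multiset.card_le_card (Multiset.filter_le _ _)).trans hc
  · intro P hP
    unfold redS at hP
    obtain ⟨T, hT, rfl⟩ := Multiset.mem_map.1 hP
    obtain ⟨hT1, hT2⟩ := Multiset.mem_filter.1 hT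
    have h1 : v (T.1 ^ p) ≤ 1 := by
      rw [map_pow]
      exact pow_le_one' hT2 p
    have h3 : v (T.1 ^ p - T.1) < 1 :=
      lt_of_le_of_ne ((v.map_sub _ _).trans (max_le h1 hT2)) (hcon T hT1 hT2)
    show re v T.1 ^ p = re v T.1
    rw [← re_pow v hT2, re_eq_iff v h1 hT2]
    exact h3

theorem claim (Sc : Multiset (AK × AK)) (hSc : OnC a Sc)
    (hc : ∀ m : ℕ, 0 < m → clS a Sc ^ m ≠ 1) (L : Finset AK) :
    ∃ (S : Multiset (AK × AK)) (M N : ℕ) (σ : AK ≃ₐ[ℚ] AK) (T : AK × AK), OnC a S ∧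
      Multiset.card S ≤ 2 ∧ T ∈ S ∧ 0 < M ∧ 0 < N ∧ clS a S ^ N = clS a Sc ^ M ∧
      (∀ x ∈ L, σ x = x) ∧ (∀ i, σ (a i) = a i) ∧ (∀ P ∈ Sc, σ P.1 = P.1 ∧ σ P.2 = P.2) ∧
      ∀ m, 0 < m → (cl a (σ T.1) (σ T.2) * (cl a T.1 T.2)⁻¹) ^ m ≠ 1 := by
  classical
  have hinj : Function.Injective a := Fact.out
  -- the place
  obtain ⟨p, hp, ι, h3, hQ, hU⟩ := EC.exists_emb (L ∪ (Finset.univ.image a ∪
    (Finset.univ.image (fun ij : Fin (2 * 2 + 1) × Fin (2 * 2 + 1) => a ij.1 - a ij.2) ∪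
      ((Sc.map Prod.fst).toFinset ∪ (Sc.map Prod.snd).toFinset))))
  have mL : ∀ x ∈ L, ι x ∈ EC.Qp p := fun x hx => hQ x (by simp [hx])
  have ma : ∀ i, ι (a i) ∈ EC.Qp p := fun i => hQ _ (by simp)
  have mc : ∀ P ∈ Sc, ι P.1 ∈ EC.Qp p ∧ ι P.2 ∈ EC.Qp p := by
    intro P hP
    refine ⟨hQ _ ?_, hQ _ ?_⟩
    · simp only [Finset.mem_union, Multiset.mem_toFinset, Multiset.mem_map]
      exact Or.inr (Or.inr (Or.inr (Or.inl ⟨P, hP, rfl⟩)))
    · simp only [Finset.mem_union, Multiset.mem_toFinset, Multiset.mem_map]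
      exact Or.inr (Or.inr (Or.inr (Or.inr ⟨P, hP, rfl⟩)))
  obtain ⟨v, hv⟩ := isVal_exists p ι
  have h2 := v_two_eq h3 hv
  have ha : ∀ i, v (a i) ≤ 1 := by
    intro i
    by_cases h0 : a i = 0
    · rw [h0, map_zero]
      exact zero_le
    · exact ((val_eq_one hv).2 (hU _ (by simp) h0)).le
  have hd : ∀ i j, i ≠ j → v (a i - a j) = 1 := by
    intro i j hij
    refine (val_eq_one hv).2 (hU _ ?_ (sub_ne_zero.2 fun h => hij (hinj h)))
    simp only [Finset.mem_union, Finset.mem_image, Finset.mem_univ, true_and]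
    exact Or.inr (Or.inr (Or.inl ⟨(i, j), rfl⟩))
  have fra : Fact (Function.Injective (ra v a)) := ⟨ra_inj v a ha hd⟩
  have f2 : NeZero (2 : RF v) := two_ne v h2
  have fac : IsAlgClosed (RF v) := rf_algClosed v
  obtain ⟨ρ, hρ⟩ := exists_rho v ha
  -- the tower
  have hW : (0 : AK) ^ 2 = (FF a).eval (a 0) := by
    unfold FF
    rw [eval_prod, zero_pow two_ne_zero]
    symm
    apply Finset.prod_eq_zero (Finset.mem_univ (0 : Fin (2 * 2 + 1)))
    simp
  have hWon : OnC a {(a 0, 0)} := by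
    intro P hP
    rw [Multiset.mem_singleton] at hP
    rw [hP]
    exact hW
  obtain ⟨t, ht0, ht⟩ := tower a (cl a (a 0) 0)
  have hρ0 : ρ (t 0) ≠ 1 := by
    have e1 : clS a {(a 0, (0 : AK))} = t 0 := by rw [clS_single, ht0]
    have e2 : redS v {(a 0, (0 : AK))} = {(re v (a 0), re v 0)} := by
      unfold redS
      rw [Multiset.filter_singleton, if_pos (ha 0), Multiset.map_singleton]
    rw [← e1, hρ _ hWon, e2, clS_single]
    refine cl_ne_one (ra v a) (by norm_num) ?_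
    have h4 := onC_redS v ha hWon
    rw [e2] at h4
    exact h4 _ (Multiset.mem_singleton_self _)
  have ht1 : t 0 ^ 2 = 1 := by rw [ht0]; exact cl_W a 0
  obtain ⟨hinjt, hord⟩ := order_tower ρ t hρ0 ht1 ht
  obtain ⟨j, k0, m, hk0, hm, hF⟩ := choose_prog _ (fin_classes (ra v a) p hp.out.one_lt)
    (fun n => ρ (t n)) hinjt (ρ (clS a Sc))
  -- the classes and their points
  have hrep : ∀ n : ℕ, ∃ S : Multiset (AK × AK), OnC a S ∧ Multiset.card S ≤ 2 ∧
      clS a S = t j * clS a Sc ^ (k0 + m * n) := fun n => rep a _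
  choose S hS hScard hScl using hrep
  have hnF : ∀ n, clS (ra v a) (redS v (S n)) ∉ {c : ClassGroup (CR (FF (ra v a))) | ∃ S,
      OnC (ra v a) S ∧ Multiset.card S ≤ 2 ∧ (∀ P ∈ S, P.1 ^ p = P.1) ∧
        clS (ra v a) S = c} := by
    intro n
    have h4 := hF n
    rwa [← map_pow, ← map_mul, ← hScl n, hρ _ (hS n)] at h4
  have hne1 : ∀ n, clS a (S n) ≠ 1 := by
    intro n h4
    apply hnF n
    refine ⟨0, onC_zero _, by simp, by simp, ?_⟩
    rw [clS_zero, ← hρ _ (hS n), h4, map_one]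
  have hTex : ∀ n, ∃ T ∈ S n, v T.1 ≤ 1 ∧ v (T.1 ^ p - T.1) = 1 := fun n =>
    exists_T a hv ha (S n) (hS n) (hScard n) (hnF n)
  choose T hTS hT1 hTp using hTex
  have hTc : ∀ n, (T n).2 ^ 2 = (FF a).eval (T n).1 := fun n => hS n _ (hTS n)
  have hTu : ∀ n, v (T n).2 = 1 := fun n => ord_unit hv ma ha (hTc n) (hT1 n) (hTp n)
  -- the field `E`
  obtain ⟨St, hSt, hStc⟩ := exists_points a (t j)
  obtain ⟨Co, hCo⟩ : ∃ Co : Finset AK, Co = (St.map Prod.fst).toFinset ∪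
    (St.map Prod.snd).toFinset := ⟨_, rfl⟩
  obtain ⟨E, hE⟩ : ∃ E : IntermediateField ℚ_[p] (PadicAlgCl p),
    E = IntermediateField.adjoin ℚ_[p] ((Co.image ι : Finset (PadicAlgCl p)) :
      Set (PadicAlgCl p)) := ⟨_, rfl⟩
  have hEfin : FiniteDimensional ℚ_[p] E := by
    rw [hE]
    exact IntermediateField.finiteDimensional_adjoin
      (fun x _ => (Algebra.IsAlgebraic.isAlgebraic x).isIntegral)
  have hmemE : ∀ x ∈ Co, ι x ∈ E := by
    intro x hx
    rw [hE]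
    apply IntermediateField.subset_adjoin
    rw [Finset.coe_image]
    exact ⟨x, hx, rfl⟩
  have hQfix : ∀ (s : PadicAlgCl p ≃ₐ[ℚ_[p]] PadicAlgCl p) (s0 : AK ≃ₐ[ℚ] AK),
      (∀ x, ι (s0 x) = s (ι x)) → ∀ x, ι x ∈ EC.Qp p → s0 x = x := by
    intro s s0 hs0 x hx
    apply ι.injective
    rw [hs0]
    obtain ⟨y, hy⟩ := (EC.mem_Qp p).1 hx
    rw [← hy]
    exact s.commutes y
  have hfix : ∀ n, ∀ s : PadicAlgCl p ≃ₐ[ℚ_[p]] PadicAlgCl p, (∀ y ∈ E, s y = y) →
      ∀ s0 : AK ≃ₐ[ℚ] AK, (∀ x, ι (s0 x) = s (ι x)) → (S n).map (Prod.map s0 s0) = S n := by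
    intro n s hs s0 hs0
    have hsa : ∀ i, s0 (a i) = a i := fun i => hQfix s s0 hs0 _ (ma i)
    have hmapon : ∀ R : Multiset (AK × AK), OnC a R → OnC a (R.map (Prod.map s0 s0)) := by
      intro R hR Q hQ
      obtain ⟨P, hP, rfl⟩ := Multiset.mem_map.1 hQ
      show (s0 P.2) ^ 2 = (FF a).eval (s0 P.1)
      rw [← map_pow, hR P hP]
      unfold FF
      rw [eval_prod, eval_prod, map_prod]
      refine Finset.prod_congr rfl fun i _ => ?_
      rw [eval_sub, eval_sub, eval_X, eval_C, eval_X, eval_C, map_sub, hsa]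
    have hSt0 : St.map (Prod.map s0 s0) = St := by
      conv_rhs => rw [← Multiset.map_id St]
      refine Multiset.map_congr rfl fun P hP => ?_
      have hf : ∀ x ∈ Co, s0 x = x := by
        intro x hx
        apply ι.injective
        rw [hs0]
        exact hs _ (hmemE x hx)
      refine Prod.ext (hf _ ?_) (hf _ ?_)
      · rw [hCo, Finset.mem_union]
        exact Or.inl (Multiset.mem_toFinset.2 (Multiset.mem_map_of_mem _ hP))
      · rw [hCo, Finset.mem_union]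
        exact Or.inr (Multiset.mem_toFinset.2 (Multiset.mem_map_of_mem _ hP))
    have hSc0 : Sc.map (Prod.map s0 s0) = Sc := by
      conv_rhs => rw [← Multiset.map_id Sc]
      refine Multiset.map_congr rfl fun P hP => ?_
      exact Prod.ext (hQfix s s0 hs0 _ (mc P hP).1) (hQfix s s0 hs0 _ (mc P hP).2)
    have hon : OnC a (St + (k0 + m * n) • Sc) := by
      refine (onC_add a).2 ⟨hSt, ?_⟩
      intro P hP
      exact hSc P (Multiset.mem_of_mem_nsmul hP)
    have e1 : clS a (S n) = clS a (St + (k0 + m * n) • Sc) := by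
      rw [clS_add, clS_nsmul, hStc, hScl]
    have e2 := gal_eq a s0.toRingEquiv hsa (hS n) hon e1
    have e3 : (St + (k0 + m * n) • Sc).map (Prod.map s0.toRingEquiv s0.toRingEquiv) =
        St + (k0 + m * n) • Sc := by
      show (St + (k0 + m * n) • Sc).map (Prod.map s0 s0) = _
      rw [Multiset.map_add, Multiset.map_nsmul, hSt0, hSc0]
    rw [e3, ← e1] at e2
    have e4 : clS a ((S n).map (Prod.map s0 s0)) = clS a (S n) := e2
    refine uni a rfl _ _ (hmapon _ (hS n)) (hS n) ?_ (hScard n) e4 ?_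
    · rw [Multiset.card_map]
      exact hScard n
    · rw [e4]
      exact hne1 n
  have hquad : ∀ n, ∃ e1 ∈ E, ∃ e2 ∈ E, ‖e1‖ ≤ 1 ∧ ‖e2‖ ≤ 1 ∧
      ι (T n).1 ^ 2 - e1 * ι (T n).1 + e2 = 0 := fun n =>
    quad hv E (S n) (hScard n) (T n) (hTS n) (hT1 n) (hfix n)
  obtain ⟨κ, hκ, f, hf⟩ := color hv h3 ha E T hTc hT1 hTu hquad
  obtain ⟨b, d, hd0, f1, f2', f3⟩ := four_term f
  -- two different points of the same colour
  have hex : ∃ n', f n' = f b ∧ T n' ≠ T b := by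
    by_contra hcon
    push Not at hcon
    have hall : ∀ i : ℕ, T (b + min i 3 * d) = T b := by
      intro i
      apply hcon
      have h4 : min i 3 = 0 ∨ min i 3 = 1 ∨ min i 3 = 2 ∨ min i 3 = 3 := by omega
      rcases h4 with h4 | h4 | h4 | h4
      · rw [h4, zero_mul, add_zero]
      · rw [h4, one_mul]; exact f1.symm
      · rw [h4]; exact f2'.symm
      · rw [h4]; exact f3.symm
    have hmem : ∀ i : ℕ, T b ∈ S (b + min i 3 * d) := fun i => by
      have := hTS (b + min i 3 * d)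
      rwa [hall i] at this
    have key := four a (fun i => (S (b + min i 3 * d)).erase (T b)) ?_ ?_
      (clS a Sc ^ (m * d)) ?_
    · rw [← pow_mul] at key
      exact hc _ (Nat.mul_pos (Nat.mul_pos hm hd0) two_pos) key
    · intro i P hP
      exact hS _ P (Multiset.mem_of_mem_erase hP)
    · intro i
      show Multiset.card ((S (b + min i 3 * d)).erase (T b)) ≤ 1
      rw [Multiset.card_erase_of_mem (hmem i)]
      have := hScard (b + min i 3 * d)
      exact Nat.pred_le_iff.2 this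
    · intro i hi
      have e1 : ∀ i : ℕ, clS a (S (b + min i 3 * d)) =
          cl a (T b).1 (T b).2 * clS a ((S (b + min i 3 * d)).erase (T b)) := by
        intro i
        rw [← clS_cons, Multiset.cons_erase (hmem i)]
      have e2 : min (i + 1) 3 = min i 3 + 1 := by omega
      have e3 : clS a (S (b + min (i + 1) 3 * d)) =
          clS a (S (b + min i 3 * d)) * clS a Sc ^ (m * d) := by
        rw [hScl, hScl, mul_assoc, ← pow_add, e2]
        congr 2
        ring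
      rw [e1, e1, mul_assoc] at e3
      exact mul_left_cancel e3
  obtain ⟨n', hn', hne⟩ := hex
  obtain ⟨hcl1, hcl2⟩ := hf n' b hn'
  obtain ⟨s, s0, hs0, hor⟩ := two_close a hv h3 ha hd ma (T b) (T n') (hTc b) (hTc n') (hT1 b)
    (hTp b) (hTu b) hne hcl1 hcl2
  have hpow : ∀ n, clS a (S n) ^ (2 ^ (j + 1)) =
      clS a Sc ^ ((k0 + m * n) * 2 ^ (j + 1)) := by
    intro n
    rw [hScl, mul_pow, hord, one_mul, ← pow_mul]
  have hpos : ∀ n, 0 < (k0 + m * n) * 2 ^ (j + 1) := fun n =>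
    Nat.mul_pos (by omega) (by positivity)
  rcases hor with h4 | h4
  · exact ⟨S b, _, _, s0, T b, hS b, hScard b, hTS b, hpos b, by positivity, hpow b,
      fun x hx => hQfix s s0 hs0 x (mL x hx), fun i => hQfix s s0 hs0 _ (ma i),
      fun P hP => ⟨hQfix s s0 hs0 _ (mc P hP).1, hQfix s s0 hs0 _ (mc P hP).2⟩, h4⟩
  · exact ⟨S n', _, _, s0, T n', hS n', hScard n', hTS n', hpos n', by positivity, hpow n',
      fun x hx => hQfix s s0 hs0 x (mL x hx), fun i => hQfix s s0 hs0 _ (ma i),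
      fun P hP => ⟨hQfix s s0 hs0 _ (mc P hP).1, hQfix s s0 hs0 _ (mc P hP).2⟩, h4⟩

end GJ
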