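import Pool.Agent.H83.EC.Om
import Pool.Agent.H95.HK.FinA1
import Pool.Agent.H98.GJ.Red

/-!
# GJ, CoreA: estimates at the place `v = ‖ι ·‖`
-/

set_option autoImplicit false

namespace GJ

open Polynomial HK

/-- `v` is the valuation given by the embedding `ι`. -/
def IsVal (p : ℕ) [Fact p.Prime] (ι : AK →+* PadicAlgCl p) (v : Valuation AK NNReal) : Prop :=
  ∀ x, v x = ‖ι x‖₊

variable {p : ℕ} [hp : Fact p.Prime] {ι : AK →+* PadicAlgCl p} {v : Valuation AK NNReal}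

theorem isVal_exists (p : ℕ) [Fact p.Prime] (ι : AK →+* PadicAlgCl p) :
    ∃ v : Valuation AK NNReal, IsVal p ι v :=
  ⟨(Valued.v : Valuation (PadicAlgCl p) NNReal).comap ι, fun _ => rfl⟩

theorem val_le (hv : IsVal p ι v) {x : AK} {r : NNReal} : v x ≤ r ↔ ‖ι x‖ ≤ r := by
  rw [hv, ← NNReal.coe_le_coe, coe_nnnorm]

theorem val_le_one (hv : IsVal p ι v) {x : AK} : v x ≤ 1 ↔ ‖ι x‖ ≤ 1 := by
  rw [val_le hv, NNReal.coe_one]

theorem val_lt_one (hv : IsVal p ι v) {x : AK} : v x < 1 ↔ ‖ι x‖ < 1 := by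
  rw [hv, ← NNReal.coe_lt_coe, coe_nnnorm, NNReal.coe_one]

theorem val_eq_one (hv : IsVal p ι v) {x : AK} : v x = 1 ↔ ‖ι x‖ = 1 := by
  rw [hv, ← NNReal.coe_inj, coe_nnnorm, NNReal.coe_one]

theorem v_two_eq (h3 : 3 ≤ p) (hv : IsVal p ι v) : v 2 = 1 := by
  rw [val_eq_one hv, map_ofNat]
  have e : (2 : PadicAlgCl p) = algebraMap ℚ_[p] (PadicAlgCl p) ((2 : ℕ) : ℚ_[p]) := by
    rw [map_natCast, Nat.cast_ofNat]
  rw [e, norm_algebraMap', Padic.norm_natCast_eq_one_iff]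
  exact (Nat.coprime_primes hp.out Nat.prime_two).2 (by omega)

/-- the hypothesis of the main lemma -/
theorem small (h3 : 3 ≤ p) (hv : IsVal p ι v) {x : AK} (hx : ‖ι x‖ ≤ (p : ℝ)⁻¹) (j : ℕ)
    (hj : 2 ≤ j) : v x ^ (j - 1) < v (j : AK) := by
  have hp0 := EC.p_pos p
  have hj0 : 0 < j := by omega
  obtain ⟨n, m, hm, hnm⟩ := Nat.exists_eq_pow_mul_and_not_dvd hj0.ne' p hp.out.ne_one
  have h1 : ‖(j : PadicAlgCl p)‖ = ((p : ℝ) ^ n)⁻¹ := by
    have e : (j : PadicAlgCl p) = algebraMap ℚ_[p] (PadicAlgCl p) (j : ℚ_[p]) := by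
      rw [map_natCast]
    have hm1 : ‖(m : ℚ_[p])‖ = 1 := by
      rw [Padic.norm_natCast_eq_one_iff]
      exact (Nat.Prime.coprime_iff_not_dvd hp.out).2 hm
    rw [e, norm_algebraMap', hnm, Nat.cast_mul, Nat.cast_pow, norm_mul, norm_pow, Padic.norm_p,
      hm1, mul_one, inv_pow]
  have h2 : (p : ℝ) ^ n ≤ j := by
    have hm0 : m ≠ 0 := by
      rintro rfl
      exact hm (dvd_zero p)
    have : p ^ n ≤ j := by
      rw [hnm]
      exact Nat.le_mul_of_pos_right _ (Nat.pos_of_ne_zero hm0)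
    exact_mod_cast this
  have h4 : j < 3 ^ (j - 1) := by
    obtain ⟨i, rfl⟩ : ∃ i, j = i + 2 := ⟨j - 2, by omega⟩
    have : ∀ i : ℕ, i + 2 < 3 ^ (i + 1) := by
      intro i
      induction i with
      | zero => norm_num
      | succ i ih =>
        rw [pow_succ]
        omega
    exact this i
  rw [hv, hv, ← NNReal.coe_lt_coe, NNReal.coe_pow, coe_nnnorm, coe_nnnorm, map_natCast, h1]
  calc ‖ι x‖ ^ (j - 1) ≤ ((p : ℝ)⁻¹) ^ (j - 1) := pow_le_pow_left₀ (norm_nonneg _) hx _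
    _ = ((p : ℝ) ^ (j - 1))⁻¹ := inv_pow _ _
    _ < (j : ℝ)⁻¹ := by
      apply inv_strictAnti₀
      · exact_mod_cast hj0
      · have h5 : (j : ℝ) < 3 ^ (j - 1) := by exact_mod_cast h4
        have h6 : (3 : ℝ) ^ (j - 1) ≤ (p : ℝ) ^ (j - 1) :=
          pow_le_pow_left₀ (by norm_num) (by exact_mod_cast h3) _
        linarith
    _ ≤ ((p : ℝ) ^ n)⁻¹ := inv_anti₀ (by positivity) h2

/-- Fermat's little theorem for the elements of `ℤ_p`. -/
theorem fermat {z : PadicAlgCl p} (hz : z ∈ EC.Qp p) (h1 : ‖z‖ ≤ 1) : ‖z ^ p - z‖ < 1 := by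
  obtain ⟨y, rfl⟩ := (EC.mem_Qp p).1 hz
  rw [norm_algebraMap'] at h1
  rw [← map_pow, ← map_sub, norm_algebraMap']
  obtain ⟨z, hz⟩ : ∃ z : ℤ_[p], (z : ℚ_[p]) = y := ⟨⟨y, h1⟩, rfl⟩
  have h2 : z ^ p - z ∈ IsLocalRing.maximalIdeal ℤ_[p] := by
    rw [← PadicInt.ker_toZMod, RingHom.mem_ker, map_sub, map_pow, ZMod.pow_card, sub_self]
  have h3 := PadicInt.mem_nonunits.1 h2
  rw [PadicInt.norm_def, PadicInt.coe_sub, PadicInt.coe_pow, hz] at h3
  exact h3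

theorem na (x y : PadicAlgCl p) : ‖x + y‖ ≤ max ‖x‖ ‖y‖ := PadicAlgCl.isNonarchimedean p x y

theorem na_sub (x y : PadicAlgCl p) : ‖x - y‖ ≤ max ‖x‖ ‖y‖ := by
  have := na x (-y)
  rwa [norm_neg, ← sub_eq_add_neg] at this

/-- congruent integral elements have congruent `p`-th powers -/
theorem pow_cong {x y : PadicAlgCl p} (hx : ‖x‖ ≤ 1) (hxy : ‖x - y‖ < 1) (n : ℕ) :
    ‖x ^ n - y ^ n‖ < 1 := by
  have hy : ‖y‖ ≤ 1 := by
    have := na_sub x (x - y)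
    rw [sub_sub_cancel] at this
    exact this.trans (max_le hx hxy.le)
  induction n with
  | zero => rw [pow_zero, pow_zero, sub_self, norm_zero]; exact one_pos
  | succ n ih =>
    have e : x ^ (n + 1) - y ^ (n + 1) = (x ^ n - y ^ n) * x + y ^ n * (x - y) := by ring
    rw [e]
    refine lt_of_le_of_lt (na _ _) (max_lt ?_ ?_)
    · rw [norm_mul]
      calc ‖x ^ n - y ^ n‖ * ‖x‖ ≤ ‖x ^ n - y ^ n‖ * 1 :=
            mul_le_mul_of_nonneg_left hx (norm_nonneg _)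
        _ < 1 := by rw [mul_one]; exact ih
    · rw [norm_mul, norm_pow]
      calc ‖y‖ ^ n * ‖x - y‖ ≤ 1 * ‖x - y‖ :=
            mul_le_mul_of_nonneg_right (pow_le_one₀ (norm_nonneg _) hy) (norm_nonneg _)
        _ < 1 := by rw [one_mul]; exact hxy

/-- An integral element `x` whose residue is not in the prime field has `‖x - z‖ = 1` for all
`z` in `ℤ_p`. -/
theorem dist_Qp {x z : PadicAlgCl p} (hx : ‖x‖ ≤ 1) (h : ‖x ^ p - x‖ = 1) (hz : z ∈ EC.Qp p)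
    (hz1 : ‖z‖ ≤ 1) : ‖x - z‖ = 1 := by
  refine le_antisymm ((na_sub x z).trans (max_le hx hz1)) ?_
  by_contra hcon
  push Not at hcon
  have h1 := pow_cong hx hcon p
  have h2 := fermat hz hz1
  have e : x ^ p - x = (x ^ p - z ^ p) + ((z ^ p - z) - (x - z)) := by ring
  rw [e] at h
  have h3 : ‖(x ^ p - z ^ p) + ((z ^ p - z) - (x - z))‖ < 1 :=
    lt_of_le_of_lt (na _ _) (max_lt h1 (lt_of_le_of_lt (na_sub _ _) (max_lt h2 hcon)))
  rw [h] at h3
  exact lt_irrefl _ h3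

/-- the ordinate of a point whose abscissa has a residue outside of the prime field is a unit -/
theorem ord_unit (hv : IsVal p ι v) {g : ℕ} {a : Fin (2 * g + 1) → AK}
    (haQ : ∀ i, ι (a i) ∈ EC.Qp p) (ha : ∀ i, v (a i) ≤ 1) {P : AK × AK}
    (hP : P.2 ^ 2 = (FF a).eval P.1) (h1 : v P.1 ≤ 1) (h : v (P.1 ^ p - P.1) = 1) :
    v P.2 = 1 := by
  have h2 : v ((FF a).eval P.1) = 1 := by
    unfold FF
    rw [eval_prod, map_prod]
    refine Finset.prod_eq_one fun i _ => ?_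
    rw [eval_sub, eval_X, eval_C, val_eq_one hv, map_sub]
    rw [val_eq_one hv, map_sub, map_pow] at h
    exact dist_Qp ((val_le_one hv).1 h1) h (haQ i) ((val_le_one hv).1 (ha i))
  rw [← hP, map_pow] at h2
  exact (pow_eq_one_iff_of_nonneg zero_le two_ne_zero).1 h2

/-- two points with the same abscissa and congruent ordinates are equal -/
theorem eq_of_fst (h2 : v 2 = 1) {g : ℕ} {a : Fin (2 * g + 1) → AK} {P P' : AK × AK}
    (hP : P.2 ^ 2 = (FF a).eval P.1) (hP' : P'.2 ^ 2 = (FF a).eval P'.1) (h1 : v P.2 = 1)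
    (h : v (P'.2 - P.2) < 1) (hx : P'.1 = P.1) : P' = P := by
  refine Prod.ext hx ?_
  rw [hx, ← hP] at hP'
  rcases sq_eq_sq_iff_eq_or_eq_neg.1 hP' with h3 | h3
  · exact h3
  · exfalso
    rw [h3] at h
    have e : -P.2 - P.2 = -(2 * P.2) := by ring
    rw [e, Valuation.map_neg, map_mul, h2, h1, mul_one] at h
    exact lt_irrefl _ h

end GJ
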