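import Pool.Agent.H95.HK.CRb

/-!
# GJ, Dk: the coordinate ring of `y ^ 2 = ∏ (x - a_i)` is a Dedekind domain in characteristic `≠ 2`

The proofs are those of `H95/HK/CRa` (helper95), with `CharZero` replaced by `2 ≠ 0`.
-/

set_option autoImplicit false

namespace GJ

open Polynomial HK

variable {K : Type*} [Field K] {g : ℕ} (a : Fin (2 * g + 1) → K)

private theorem dk_cg (F : K[X]) {x x' y y' : K[X]} (h1 : x = x') (h2 : y = y') : el F x y = el F x' y' := by
  rw [h1, h2]

instance isDom [Fact (Function.Injective a)] : IsDomain (CR (FF a)) := by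
  have : NoZeroDivisors (CR (FF a)) := by
    constructor
    intro z z' h
    obtain ⟨u, w, rfl⟩ := el_surj (FF a) z
    by_contra hcon
    push Not at hcon
    obtain ⟨hz, hz'⟩ := hcon
    obtain ⟨u', w', rfl⟩ := el_surj (FF a) z'
    have h1 : el (FF a) u (-w) * el (FF a) u w = el (FF a) (u ^ 2 - w ^ 2 * FF a) 0 := by
      rw [el_mul]
      exact dk_cg _ (by ring) (by ring)
    have h2 : el (FF a) (u ^ 2 - w ^ 2 * FF a) 0 * el (FF a) u' w' = 0 := by
      rw [← h1, mul_assoc, h, mul_zero]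
    rw [el_mul, ← el_zero (FF a)] at h2
    obtain ⟨h3, h4⟩ := el_inj (FF a) h2
    have hN : u ^ 2 - w ^ 2 * FF a ≠ 0 := by
      intro h0
      obtain ⟨hu, hw⟩ := par_deg u w (FF a) (cra_FF_odd a) (sub_eq_zero.1 h0)
      apply hz
      rw [hu, hw, el_zero]
    have h5 : u' = 0 := by
      have : (u ^ 2 - w ^ 2 * FF a) * u' = 0 := by linear_combination h3
      exact (mul_eq_zero.1 this).resolve_left hN
    have h6 : w' = 0 := by
      have : (u ^ 2 - w ^ 2 * FF a) * w' = 0 := by linear_combination h4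
      exact (mul_eq_zero.1 this).resolve_left hN
    apply hz'
    rw [h5, h6, el_zero]
  have : Nontrivial (CR (FF a)) := by
    refine ⟨0, 1, fun h => ?_⟩
    rw [← el_zero (FF a), ← el_one (FF a)] at h
    exact zero_ne_one (el_inj (FF a) h).1
  exact NoZeroDivisors.to_isDomain _


variable [NeZero (2 : K)]

instance isDed [Fact (Function.Injective a)] : IsDedekindDomain (CR (FF a)) := by
  have hfin : Module.Finite K[X] (CR (FF a)) := (cra_monic (FF a)).finite_adjoinRoot
  have hint : Algebra.IsIntegral K[X] (CR (FF a)) := Algebra.IsIntegral.of_finite _ _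
  have hdim : Ring.DimensionLEOne (CR (FF a)) :=
    Ring.DimensionLEOne.of_isIntegral K[X] (CR (FF a))
  have hinj : Function.Injective a := Fact.out
  rw [isDedekindDomain_iff (CR (FF a)) (FractionRing (CR (FF a)))]
  refine ⟨inferInstance, inferInstance, hdim, ?_⟩
  intro z hz
  have hz' : IsIntegral K[X] z := isIntegral_trans z hz
  obtain ⟨r, s, hs, hrs⟩ := IsFractionRing.div_surjective (CR (FF a)) z
  obtain ⟨u0, w0, hr⟩ := el_surj (FF a) r
  obtain ⟨u1, w1, hs1⟩ := el_surj (FF a) s
  have hs0 : s ≠ 0 := nonZeroDivisors.ne_zero hs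
  set p : K[X] := u1 ^ 2 - w1 ^ 2 * FF a with hp
  have hp0 : p ≠ 0 := by
    intro h0
    obtain ⟨hu, hw⟩ := par_deg u1 w1 (FF a) (cra_FF_odd a) (sub_eq_zero.1 h0)
    apply hs0
    rw [← hs1, hu, hw, el_zero]
  set u : K[X] := u0 * u1 - w0 * w1 * FF a with hu
  set w : K[X] := w0 * u1 - u0 * w1 with hw
  have hsc : s * el (FF a) u1 (-w1) = el (FF a) p 0 := by
    rw [← hs1, el_mul]
    exact dk_cg _ (by rw [hp]; ring) (by ring)
  have hrc : r * el (FF a) u1 (-w1) = el (FF a) u w := by
    rw [← hr, el_mul]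
    exact dk_cg _ (by rw [hu]; ring) (by rw [hw]; ring)
  set ι := algebraMap (CR (FF a)) (FractionRing (CR (FF a))) with hι
  have hιinj : Function.Injective ι := IsFractionRing.injective _ _
  have hpz : ι (el (FF a) p 0) * z = ι (el (FF a) u w) := by
    have hs2 : ι s ≠ 0 := by
      intro h0
      exact hs0 (hιinj (h0.trans (map_zero ι).symm))
    rw [← hsc, ← hrc, map_mul, map_mul, ← hrs]
    field_simp
  -- the conjugate
  set τ := IsFractionRing.algEquivOfAlgEquiv (K := FractionRing (CR (FF a)))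
    (L := FractionRing (CR (FF a))) (cra_conj (FF a)) with hτ
  have hτι : ∀ q w' : K[X], τ (ι (el (FF a) q w')) = ι (el (FF a) q (-w')) := by
    intro q w'
    rw [hτ, hι, IsFractionRing.algEquivOfAlgEquiv_algebraMap, cra_conj_el]
  have hτz : IsIntegral K[X] (τ z) := hz'.map τ.toAlgHom
  have hpz' : ι (el (FF a) p 0) * τ z = ι (el (FF a) u (-w)) := by
    have := congrArg τ hpz
    rw [map_mul, hτι, hτι, neg_zero] at this
    exact this
  have hel : ∀ q : K[X], ι (el (FF a) q 0) = algebraMap K[X] (FractionRing (CR (FF a))) q := by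
    intro q
    rw [← HK.algebraMap_eq, hι, ← IsScalarTower.algebraMap_apply]
  have hKinj : Function.Injective (algebraMap K[X] (FractionRing (CR (FF a)))) := by
    intro q q' h
    rw [← hel, ← hel] at h
    exact (el_inj (FF a) (hιinj h)).1
  -- divisibility from integrality
  have key : ∀ (q q' : K[X]) (x : FractionRing (CR (FF a))), q ≠ 0 → IsIntegral K[X] x →
      algebraMap K[X] (FractionRing (CR (FF a))) q * x =
        algebraMap K[X] (FractionRing (CR (FF a))) q' → q ∣ q' := by
    intro q q' x hq hx hqx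
    exact cra_dvd_of_integral hKinj q q' x hq hx hqx
  have hpu : p ∣ u := by
    have h1 : p ∣ 2 * u := by
      refine key p (2 * u) (z + τ z) hp0 (hz'.add hτz) ?_
      rw [← hel, mul_add, hpz, hpz', ← map_add ι, el_add, ← hel]
      exact congrArg ι (dk_cg _ (by ring) (by ring))
    have h2 : IsUnit (2 : K[X]) := by
      have : (2 : K[X]) = C 2 := (map_ofNat C 2).symm
      rw [this]
      exact isUnit_C.2 (isUnit_iff_ne_zero.2 two_ne_zero)
    exact (h2.dvd_mul_left).1 h1
  have hpw : p ∣ w := by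
    have h1 : p ^ 2 ∣ u ^ 2 - w ^ 2 * FF a := by
      refine key (p ^ 2) _ (z * τ z) (pow_ne_zero 2 hp0) (hz'.mul hτz) ?_
      have e1 : algebraMap K[X] (FractionRing (CR (FF a))) (p ^ 2) * (z * τ z) =
          (ι (el (FF a) p 0) * z) * (ι (el (FF a) p 0) * τ z) := by
        rw [hel, map_pow]
        ring
      rw [e1, hpz, hpz', ← map_mul ι, el_mul, ← hel]
      exact congrArg ι (dk_cg _ (by ring) (by ring))
    have h2 : p ^ 2 ∣ w ^ 2 * FF a := by
      have h3 : p ^ 2 ∣ u ^ 2 := pow_dvd_pow_of_dvd hpu 2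
      have h4 := dvd_sub h3 h1
      have h5 : u ^ 2 - (u ^ 2 - w ^ 2 * FF a) = w ^ 2 * FF a := by ring
      rwa [h5] at h4
    exact cra_dvd_of_sq p w (FF a) hp0 (cra_FF_squarefree a hinj) h2
  obtain ⟨u', hu'⟩ := hpu
  obtain ⟨w', hw'⟩ := hpw
  refine ⟨el (FF a) u' w', ?_⟩
  have hp1 : ι (el (FF a) p 0) ≠ 0 := by
    intro h0
    have h1 := hιinj (h0.trans (map_zero ι).symm)
    rw [← el_zero (FF a)] at h1
    exact hp0 (el_inj (FF a) h1).1
  apply mul_left_cancel₀ hp1
  rw [hpz, ← map_mul, el_mul]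
  exact congrArg ι (dk_cg _ (by rw [hu']; ring) (by rw [hw']; ring))

end GJ
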