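import Pool.Agent.H88.GJ.Uni

/-!
# GJ, Half: the class group is divisible by two

PROOF (Zarhin).  Let `(t, y)` be a point, `r_i ^ 2 = t - a_i`, `∏ r_i = y`, `G(Z) = ∏ (Z - r_i) = E(Z ^ 2) + Z U(Z ^ 2)`.  Then
`E(W) ^ 2 - W U(W) ^ 2 = G(Z) G(-Z) = ∏ (t - a_i - W)` (`W = Z ^ 2`), so, `W = t - x`: `F(x) = A(x) ^ 2 + (x - t) U(t - x) ^ 2`, `A(x) = - E(t - x)`, `A(t) = y`, and the
divisor of `y - A(x)` is `(t, y)` plus twice a divisor.
-/

set_option autoImplicit false

namespace GJ

open Polynomial HK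

private theorem half_parts {K : Type*} [Field K] (p : K[X]) :
    ∃ E U : K[X], p = E.comp (X ^ 2) + X * U.comp (X ^ 2) := by
  induction p using Polynomial.induction_on' with
  | add p q hp hq =>
    obtain ⟨E, U, h⟩ := hp
    obtain ⟨E', U', h'⟩ := hq
    refine ⟨E + E', U + U', ?_⟩
    rw [add_comp, add_comp, h, h']
    ring
  | monomial n c =>
    obtain ⟨m, rfl | rfl⟩ := Nat.even_or_odd' n
    · refine ⟨monomial m c, 0, ?_⟩
      rw [monomial_comp, zero_comp, mul_zero, add_zero, ← pow_mul, C_mul_X_pow_eq_monomial]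
    · refine ⟨0, monomial m c, ?_⟩
      rw [monomial_comp, zero_comp, zero_add, ← pow_mul, ← C_mul_X_pow_eq_monomial]
      ring

private theorem half_comp_inj {K : Type*} [Field K] {p q : K[X]}
    (h : p.comp (X ^ 2) = q.comp (X ^ 2)) : p = q := by
  rw [← expand_eq_comp_X_pow, ← expand_eq_comp_X_pow] at h
  exact expand_injective two_pos h

variable {K : Type*} [Field K] [NeZero (2 : K)] {g : ℕ} (a : Fin (2 * g + 1) → K)
  [Fact (Function.Injective a)]

omit [NeZero (2 : K)] [Fact (Function.Injective a)] in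
theorem half_poly [IsAlgClosed K] {t y : K} (h : y ^ 2 = (FF a).eval t) :
    ∃ A U : K[X], FF a = A ^ 2 + (X - C t) * U ^ 2 ∧ A.eval t = y := by
  have hodd : Odd (Finset.univ : Finset (Fin (2 * g + 1))).card := by
    rw [Finset.card_univ, Fintype.card_fin]
    exact ⟨g, rfl⟩
  have hneg : ∀ r : Fin (2 * g + 1) → K, ∏ i, (-r i) = -∏ i, r i := by
    intro r
    rw [Finset.prod_neg, hodd.neg_one_pow, neg_one_mul]
  obtain ⟨r, hr, hry⟩ : ∃ r : Fin (2 * g + 1) → K, (∀ i, r i ^ 2 = t - a i) ∧ ∏ i, r i = y := by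
    have h0 : ∀ i, ∃ r : K, r ^ 2 = t - a i := fun i =>
      IsAlgClosed.exists_pow_nat_eq (t - a i) two_pos
    choose r hr using h0
    have h1 : (∏ i, r i) ^ 2 = y ^ 2 := by
      rw [← Finset.prod_pow, h]
      unfold FF
      rw [eval_prod]
      refine Finset.prod_congr rfl fun i _ => ?_
      rw [hr i, eval_sub, eval_X, eval_C]
    rcases sq_eq_sq_iff_eq_or_eq_neg.1 h1 with h2 | h2
    · exact ⟨r, hr, h2⟩
    · refine ⟨fun i => -r i, fun i => by rw [neg_sq]; exact hr i, ?_⟩
      rw [hneg, h2, neg_neg]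
  obtain ⟨E, U, hG⟩ := half_parts (∏ i, (X - C (r i)))
  have hG2 : ∏ i, (-X - C (r i)) = E.comp (X ^ 2) - X * U.comp (X ^ 2) := by
    have h1 := congrArg (fun p : K[X] => p.comp (-X)) hG
    simp only [prod_comp, sub_comp, X_comp, C_comp, add_comp, mul_comp, comp_assoc, pow_comp,
      neg_sq] at h1
    rw [h1]
    ring
  have hE : E ^ 2 - X * U ^ 2 = ∏ i, (C (t - a i) - X) := by
    apply half_comp_inj
    have h1 : (∏ i, (X - C (r i))) * ∏ i, (-X - C (r i)) =
        (E.comp (X ^ 2) + X * U.comp (X ^ 2)) * (E.comp (X ^ 2) - X * U.comp (X ^ 2)) := by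
      rw [hG2, ← hG]
    rw [← Finset.prod_mul_distrib] at h1
    rw [prod_comp]
    have h2 : ∀ i : Fin (2 * g + 1), (C (t - a i) - X : K[X]).comp (X ^ 2) =
        (X - C (r i)) * (-X - C (r i)) := by
      intro i
      rw [sub_comp, C_comp, X_comp, ← hr i, C_pow]
      ring
    rw [Finset.prod_congr rfl fun i _ => h2 i, h1, sub_comp, pow_comp, mul_comp, X_comp, pow_comp]
    ring
  refine ⟨-E.comp (C t - X), U.comp (C t - X), ?_, ?_⟩
  · have h1 := congrArg (fun p : K[X] => p.comp (C t - X)) hE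
    simp only [prod_comp, sub_comp, X_comp, C_comp, mul_comp, pow_comp] at h1
    have h2 : FF a = ∏ i, (C (t - a i) - (C t - X)) := by
      unfold FF
      refine Finset.prod_congr rfl fun i _ => ?_
      rw [C_sub]
      ring
    rw [h2, ← h1]
    ring
  · have h1 := congrArg (eval 0) hG
    rw [eval_prod] at h1
    simp only [eval_sub, eval_X, eval_C, zero_sub, eval_add, eval_mul, zero_mul, add_zero,
      eval_comp, eval_pow, zero_pow two_ne_zero] at h1
    rw [hneg, hry] at h1
    rw [eval_neg, eval_comp, eval_sub, eval_C, eval_X, sub_self, ← h1, neg_neg]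

theorem halve_point [IsAlgClosed K] {t y : K} (h : y ^ 2 = (FF a).eval t) :
    ∃ S : Multiset (K × K), OnC a S ∧ cl a t y * clS a S ^ 2 = 1 := by
  obtain ⟨A, U, hAU, hA⟩ := half_poly a h
  have hU : U ≠ 0 := by
    rintro rfl
    have e1 := congrArg natDegree hAU
    rw [cra_FF_natDegree, zero_pow two_ne_zero, mul_zero, add_zero, natDegree_pow] at e1
    omega
  obtain ⟨S, hS, hS1, hS2⟩ := fct a (-A) 1 (Or.inr one_ne_zero)
  have hN : (-A) ^ 2 - 1 ^ 2 * FF a = -((X - C t) * U ^ 2) := by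
    rw [hAU]; ring
  have hroots : S.map Prod.fst = t ::ₘ (2 • U.roots) := by
    rw [hS2, hN, roots_neg, roots_mul (mul_ne_zero (X_sub_C_ne_zero t) (pow_ne_zero 2 hU)),
      roots_X_sub_C, roots_pow]
    rfl
  have hy : ∀ P ∈ S, P.2 = A.eval P.1 := by
    intro P hP
    have h1 : el (FF a) (-A) (1 : K[X]) ∈ pI (FF a) P.1 P.2 := by
      have h2 : Ideal.span {el (FF a) (-A) 1} ≤ pI (FF a) P.1 P.2 := by
        obtain ⟨T, rfl⟩ := Multiset.exists_cons_of_mem hP
        rw [hS1, Multiset.map_cons, Multiset.prod_cons]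
        exact Ideal.mul_le_left
      exact h2 (Ideal.mem_span_singleton_self _)
    rw [pI_mem (FF a) (hS P hP)] at h1
    simp only [eval_neg, eval_one, one_mul] at h1
    linear_combination h1
  have hSm : S = (S.map Prod.fst).map fun x => (x, A.eval x) := by
    rw [Multiset.map_map]
    conv_lhs => rw [← Multiset.map_id S]
    refine Multiset.map_congr rfl fun P hP => ?_
    exact Prod.ext rfl (hy P hP)
  have hon : OnC a (U.roots.map fun x => (x, A.eval x)) := by
    intro P hP
    apply hS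
    rw [hSm, hroots, Multiset.map_cons, Multiset.map_nsmul]
    refine Multiset.mem_cons_of_mem ?_
    rw [two_smul, Multiset.mem_add]
    exact Or.inl hP
  refine ⟨U.roots.map fun x => (x, A.eval x), hon, ?_⟩
  have h1 : clS a S = 1 := by
    rw [clS, cl_prod_eq_one_iff]
    exact ⟨-A, 1, Or.inr one_ne_zero, hS1.symm⟩
  rw [hSm, hroots, Multiset.map_cons, Multiset.map_nsmul, clS_cons, clS_nsmul] at h1
  rw [← hA]
  exact h1

/-- Every class is the class of a multiset of points. -/
theorem exists_points [IsAlgClosed K] (c : ClassGroup (CR (FF a))) :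
    ∃ S : Multiset (K × K), OnC a S ∧ clS a S = c := by
  obtain ⟨I, rfl⟩ := ClassGroup.mk0_surjective c
  have hI0 : (I : Ideal (CR (FF a))) ≠ 0 := nonZeroDivisors.ne_zero I.2
  have hM : ∀ P ∈ UniqueFactorizationMonoid.normalizedFactors (I : Ideal (CR (FF a))),
      ∃ x y : K, y ^ 2 = (FF a).eval x ∧ P = pI (FF a) x y := by
    intro P hP
    have hpr := UniqueFactorizationMonoid.prime_of_normalized_factor P hP
    have hPb : P ≠ ⊥ := hpr.ne_zero
    have hPp : P.IsPrime := Ideal.isPrime_of_prime hpr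
    exact exists_pI (FF a) P (hPp.isMaximal hPb) hPb
  obtain ⟨S, hS, hSM⟩ := Ck_lift a _ hM
  have hprod : (I : Ideal (CR (FF a))) = (S.map fun P => pI (FF a) P.1 P.2).prod := by
    rw [hSM]
    exact (Ideal.prod_normalizedFactors_eq_self hI0).symm
  refine ⟨S, hS, ?_⟩
  set sub : K × K → nonZeroDivisors (Ideal (CR (FF a))) := fun P =>
    ⟨pI (FF a) P.1 P.2, mem_nonZeroDivisors_of_ne_zero (pI_ne_bot (FF a) P.1 P.2)⟩ with hsub
  have e1 : (S.map fun P => cl a P.1 P.2).prod = ClassGroup.mk0 (S.map sub).prod := by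
    rw [map_multiset_prod, Multiset.map_map]
    rfl
  have e2 : (((S.map sub).prod : nonZeroDivisors (Ideal (CR (FF a)))) : Ideal (CR (FF a))) =
      (S.map fun P => pI (FF a) P.1 P.2).prod := by
    rw [Submonoid.coe_multiset_prod, Multiset.map_map]
    rfl
  have e3 : (S.map sub).prod = I := Subtype.ext (e2.trans hprod.symm)
  rw [← e3]
  exact e1

theorem two_div [IsAlgClosed K] (c : ClassGroup (CR (FF a))) :
    ∃ d : ClassGroup (CR (FF a)), d ^ 2 = c := by
  obtain ⟨S, hS, rfl⟩ := exists_points a c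
  induction S using Multiset.induction_on with
  | empty => exact ⟨1, by rw [clS_zero, one_pow]⟩
  | cons P T ih =>
    rw [onC_cons] at hS
    obtain ⟨d, hd⟩ := ih hS.2
    obtain ⟨S', _, hS'⟩ := halve_point a hS.1
    refine ⟨(clS a S')⁻¹ * d, ?_⟩
    rw [mul_pow, hd, clS_cons, inv_pow]
    congr 1
    exact (eq_inv_of_mul_eq_one_left hS').symm

/-- The class of a point is not trivial. -/
theorem cl_ne_one [IsAlgClosed K] (hg : 0 < g) {x y : K} (h : y ^ 2 = (FF a).eval x) :
    cl a x y ≠ 1 := by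
  intro h1
  obtain ⟨D, hD⟩ := pairs a {(x, y)} (by
    intro P hP
    rw [Multiset.mem_singleton] at hP
    rw [hP]
    exact h) (by rw [Multiset.card_singleton]; omega) (by rw [clS_single]; exact h1)
  have := congrArg Multiset.card hD
  rw [Multiset.card_singleton, Multiset.card_add, card_wS] at this
  omega

/-- the class of a Weierstrass point is of order two -/
theorem cl_W (i : Fin (2 * g + 1)) : cl a (a i) 0 ^ 2 = 1 := by
  have h : (0 : K) ^ 2 = (FF a).eval (a i) := by
    unfold FF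
    rw [eval_prod, zero_pow two_ne_zero]
    symm
    apply Finset.prod_eq_zero (Finset.mem_univ i)
    simp
  have h1 := cl_conj a h
  rw [neg_zero] at h1
  exact (pow_two _).trans h1

/-- A tower of classes of order `2 ^ (n + 1)`. -/
theorem tower [IsAlgClosed K] (c : ClassGroup (CR (FF a))) :
    ∃ t : ℕ → ClassGroup (CR (FF a)), t 0 = c ∧ ∀ n, t (n + 1) ^ 2 = t n := by
  choose f hf using two_div a
  refine ⟨fun n => Nat.rec c (fun _ x => f x) n, rfl, fun n => hf _⟩

end GJ
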