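import Pool.Agent.H88.GJ.LxB

/-!
# GJ, Lx: the main lemma

Let `P, P'` and `Q, Q'` be two pairs of close points, the points of different pairs far from each other and from the Weierstrass
points.  Then `P' - P - Q' + Q` is not a torsion class.

PROOF.  `M (P' + Q + w P + w Q') = div (u + w y)`, `u ^ 2 - w ^ 2 F = R ^ M`, `R = (x - p) (x - p') (x - q) (x - q')`, so
`deg w ≤ 2 M - 3`.  Modulo the maximal ideal `u + w y` is divisible by `((x - p) (x - q)) ^ M`, so `w = 0`.  By `lx_half` the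
coefficients of index `< M - 1` of `w (X + p)` and of `w (X + q)` are smaller than the Gauss norm of `w`; divide by it and reduce:
the reduction of `w` is divisible by `((x - p) (x - q)) ^ (M - 1)`, a contradiction.
-/

set_option autoImplicit false

namespace GJ

open Polynomial HK

section

variable {K : Type*} [Field K] {Γ : Type*} [LinearOrderedCommGroupWithZero Γ] (v : Valuation K Γ)

/-- reduction commutes with translations -/
theorem rd_comp {f : K[X]} (hf : gn v f ≤ 1) {c : K} (hc : v c ≤ 1) :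
    rd v (f.comp (X + C c)) = (rd v f).comp (X + C (re v c)) := by
  have hmap : ∀ P : (v.valuationSubring)[X], rd v (P.map v.valuationSubring.subtype) =
      P.map (IsLocalRing.residue v.valuationSubring) := by
    intro P
    ext i
    have hi : ∀ i, v ((P.map v.valuationSubring.subtype).coeff i) ≤ 1 := by
      intro i
      rw [coeff_map]
      exact (P.coeff i).2
    have hg : gn v (P.map v.valuationSubring.subtype) ≤ 1 := (gn_le_iff v).2 hi
    rw [rd_coeff v hg, re_of v (hi i)]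
    refine Eq.trans ?_ (coeff_map (IsLocalRing.residue v.valuationSubring) i).symm
    congr 1
    apply Subtype.ext
    show (P.map v.valuationSubring.subtype).coeff i = (P.coeff i : K)
    rw [coeff_map]
    rfl
  obtain ⟨P, rfl⟩ : ∃ P : (v.valuationSubring)[X], P.map v.valuationSubring.subtype = f := by
    rw [← mem_lifts, lifts_iff_coeff_lifts]
    intro i
    exact ⟨⟨f.coeff i, (le_gn v f i).trans hf⟩, rfl⟩
  have e1 : (P.map v.valuationSubring.subtype).comp (X + C c) =
      (P.comp (X + C (⟨c, hc⟩ : v.valuationSubring))).map v.valuationSubring.subtype := by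
    rw [Polynomial.map_comp, Polynomial.map_add, map_X, map_C]
    rfl
  rw [e1, hmap, hmap, Polynomial.map_comp, Polynomial.map_add, map_X, map_C, re_of v hc]

/-- A polynomial whose expansions at two points with different reductions both start with `N` coefficients smaller
than its Gauss norm has degree at least `2 N`. -/
theorem deg_two {w : K[X]} (hw : w ≠ 0) {p q : K} (hp : v p ≤ 1) (hq : v q ≤ 1)
    (hpq : v (p - q) = 1) {N : ℕ}
    (h1 : ∀ n < N, v ((w.comp (X + C p)).coeff n) < gn v w)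
    (h2 : ∀ n < N, v ((w.comp (X + C q)).coeff n) < gn v w) : 2 * N ≤ w.natDegree := by
  obtain ⟨i, hi⟩ := exists_gn v w
  have hg0 : gn v w ≠ 0 := fun h => hw ((gn_eq_zero v).1 h)
  have hl : w.coeff i ≠ 0 := by
    intro h
    rw [h, map_zero] at hi
    exact hg0 hi.symm
  set W : K[X] := C (w.coeff i)⁻¹ * w with hW
  have hW1 : gn v W = 1 := by
    rw [hW, gn_mul, gn_C, map_inv₀, hi, inv_mul_cancel₀ hg0]
  have hW0 : rd v W ≠ 0 := by
    rw [Ne, rd_eq_zero v hW1.le, hW1]
    exact lt_irrefl _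
  have key : ∀ p : K, v p ≤ 1 → (∀ n < N, v ((w.comp (X + C p)).coeff n) < gn v w) →
      (X - C (re v p)) ^ N ∣ rd v W := by
    intro p hp h
    rw [X_sub_C_pow_dvd_iff, ← rd_comp v hW1.le hp, X_pow_dvd_iff]
    intro n hn
    have hc1 : gn v (W.comp (X + C p)) ≤ 1 := by rw [gn_taylor v hp, hW1]
    rw [rd_coeff v hc1, re_eq_zero v ((le_gn v _ n).trans hc1), hW, mul_comp, C_comp, coeff_C_mul,
      map_mul, map_inv₀, hi]
    calc (gn v w)⁻¹ * v ((w.comp (X + C p)).coeff n) < (gn v w)⁻¹ * gn v w :=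
          mul_lt_mul_of_pos_left (h n hn) (zero_lt_iff.2 (inv_ne_zero hg0))
      _ = 1 := inv_mul_cancel₀ hg0
  have hne : re v p - re v q ≠ 0 := by
    intro h
    have := (re_eq_iff v hp hq).1 (sub_eq_zero.1 h)
    rw [hpq] at this
    exact lt_irrefl _ this
  have hco : IsCoprime ((X - C (re v p)) ^ N) ((X - C (re v q)) ^ N) :=
    (isCoprime_X_sub_C_of_isUnit_sub (isUnit_iff_ne_zero.2 hne)).pow
  have hd := hco.mul_dvd (key p hp h1) (key q hq h2)
  have hle := natDegree_le_of_dvd hd hW0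
  rw [natDegree_mul (pow_ne_zero _ (X_sub_C_ne_zero _)) (pow_ne_zero _ (X_sub_C_ne_zero _)),
    natDegree_pow, natDegree_pow, natDegree_X_sub_C, natDegree_X_sub_C] at hle
  have h3 := rd_natDegree_le v W
  have h4 : W.natDegree ≤ w.natDegree := natDegree_C_mul_le _ _
  omega

end

section

variable {K : Type*} [Field K] [IsAlgClosed K] {Γ : Type*} [LinearOrderedCommGroupWithZero Γ]
  (v : Valuation K Γ) {g : ℕ} {a : Fin (2 * g + 1) → K} [NeZero (2 : K)]
  [Fact (Function.Injective a)]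

/-- The function of a principal divisor with integral points, normalised. -/
theorem norm_gen (ha : ∀ i, v (a i) ≤ 1) (S : Multiset (K × K)) (hS : OnC a S)
    (hint : ∀ P ∈ S, v P.1 ≤ 1) (h : clS a S = 1) :
    ∃ u w : K[X], gn v u ≤ 1 ∧ gn v w ≤ 1 ∧
      (S.map fun P => pI (FF a) P.1 P.2).prod = Ideal.span {el (FF a) u w} ∧
      u ^ 2 - w ^ 2 * FF a = (S.map fun P => X - C P.1).prod := by
  obtain ⟨u₀, w₀, h0, h1⟩ := (cl_prod_eq_one_iff a S).1 h
  obtain ⟨S', hS', hS1, hS2⟩ := fct a u₀ w₀ h0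
  have hSS : S = S' := by
    apply le_antisymm
    · exact fct_unique a S' S hS' hS (by rw [← hS1, h1])
    · exact fct_unique a S S' hS hS' (by rw [← hS1, h1])
  rw [← hSS] at hS2
  have hN0 : u₀ ^ 2 - w₀ ^ 2 * FF a ≠ 0 := by
    intro hN
    obtain ⟨hu3, hw3⟩ := par_deg u₀ w₀ (FF a) (cra_FF_odd a) (sub_eq_zero.1 hN)
    rcases h0 with h3 | h3
    · exact h3 hu3
    · exact h3 hw3
  obtain ⟨κ, hκ⟩ : ∃ κ, κ = (u₀ ^ 2 - w₀ ^ 2 * FF a).leadingCoeff := ⟨_, rfl⟩
  have hκ0 : κ ≠ 0 := by rw [hκ]; exact leadingCoeff_ne_zero.2 hN0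
  have hfac : u₀ ^ 2 - w₀ ^ 2 * FF a = C κ * (S.map fun P => X - C P.1).prod := by
    have e1 := (IsAlgClosed.splits (u₀ ^ 2 - w₀ ^ 2 * FF a)).eq_prod_roots
    rw [← hS2, Multiset.map_map, ← hκ] at e1
    exact e1
  obtain ⟨s, hs⟩ := IsAlgClosed.exists_pow_nat_eq κ (n := 2) (by norm_num)
  have hs0 : s ≠ 0 := by
    rintro rfl
    rw [zero_pow two_ne_zero] at hs
    exact hκ0 hs.symm
  have hN : (C s⁻¹ * u₀) ^ 2 - (C s⁻¹ * w₀) ^ 2 * FF a = (S.map fun P => X - C P.1).prod := by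
    have e1 : (C s⁻¹ * u₀) ^ 2 - (C s⁻¹ * w₀) ^ 2 * FF a =
        C (s⁻¹ ^ 2) * (u₀ ^ 2 - w₀ ^ 2 * FF a) := by
      rw [C_pow]
      ring
    rw [e1, hfac, ← mul_assoc, ← C_mul, ← hs, ← mul_pow, inv_mul_cancel₀ hs0, one_pow, C_1,
      one_mul]
  set u : K[X] := C s⁻¹ * u₀ with hu
  set w : K[X] := C s⁻¹ * w₀ with hw
  have hsp : Ideal.span {el (FF a) u w} = Ideal.span {el (FF a) u₀ w₀} := by
    have e2 : el (FF a) u w = el (FF a) (C s⁻¹) 0 * el (FF a) u₀ w₀ := by
      rw [el_mul, hu, hw]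
      simp
    have hu2 : IsUnit (el (FF a) (C s⁻¹) 0) := by
      refine IsUnit.of_mul_eq_one (el (FF a) (C s) 0) ?_
      rw [el_mul]
      simp only [mul_zero, zero_mul, add_zero, ← C_mul]
      rw [inv_mul_cancel₀ hs0, C_1, el_one]
    rw [e2]
    exact Ideal.span_singleton_mul_left_unit hu2 _
  -- the Gauss norms
  have hprod1 : gn v (S.map fun P => X - C P.1).prod = 1 := by
    have : ∀ T : Multiset (K × K), (∀ P ∈ T, v P.1 ≤ 1) →
        gn v (T.map fun P => X - C P.1).prod = 1 := by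
      intro T
      induction T using Multiset.induction_on with
      | empty => intro _; rw [Multiset.map_zero, Multiset.prod_zero, gn_one]
      | cons P T ih =>
        intro hT
        rw [Multiset.map_cons, Multiset.prod_cons, gn_mul,
          gn_X_sub_C v (hT P (Multiset.mem_cons_self _ _)),
          ih fun Q hQ => hT Q (Multiset.mem_cons_of_mem hQ), one_mul]
    exact this S hint
  have hF := gn_FF v ha
  have huw : gn v u ≤ 1 ∧ gn v w ≤ 1 := by
    have hne : u ≠ 0 ∨ w ≠ 0 := by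
      by_contra hc
      push Not at hc
      rw [hc.1, hc.2] at hN
      rw [zero_pow two_ne_zero, zero_mul, sub_zero] at hN
      rw [← hN, gn_zero] at hprod1
      exact zero_ne_one hprod1
    obtain ⟨c, hc, hcu, hcw, hc1⟩ := scale v u w hne
    set u' : K[X] := C c * u with hu'
    set w' : K[X] := C c * w with hw'
    have hu2 : gn v (u' ^ 2) ≤ 1 := by
      rw [gn_pow]
      exact pow_le_one' hcu 2
    have hw2 : gn v (w' ^ 2) ≤ 1 := by
      rw [gn_pow]
      exact pow_le_one' hcw 2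
    have hwF : gn v (w' ^ 2 * FF a) ≤ 1 := by
      rw [gn_mul, hF, mul_one]
      exact hw2
    have hNle : gn v (u' ^ 2 - w' ^ 2 * FF a) ≤ 1 := (gn_sub_le v _ _).trans (max_le hu2 hwF)
    have hN1 : gn v (u' ^ 2 - w' ^ 2 * FF a) = 1 := by
      refine le_antisymm hNle (not_lt.1 fun hlt => ?_)
      have h3 : rd v (u' ^ 2 - w' ^ 2 * FF a) = 0 := (rd_eq_zero v hNle).2 hlt
      rw [rd_sub v hu2 hwF, rd_mul v hw2 hF.le, rd_pow v hcu, rd_pow v hcw, rd_FF v ha] at h3
      obtain ⟨h4, h5⟩ := par_deg _ _ _ (cra_FF_odd (ra v a)) (sub_eq_zero.1 h3)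
      rw [rd_eq_zero v hcu] at h4
      rw [rd_eq_zero v hcw] at h5
      rcases hc1 with h6 | h6
      · rw [h6] at h4; exact lt_irrefl _ h4
      · rw [h6] at h5; exact lt_irrefl _ h5
    have e1 : u' ^ 2 - w' ^ 2 * FF a = C (c ^ 2) * (u ^ 2 - w ^ 2 * FF a) := by
      rw [hu', hw', C_pow]
      ring
    rw [e1, gn_mul, gn_C, hN, hprod1, mul_one, map_pow] at hN1
    have hvc : v c = 1 := (pow_eq_one_iff_of_nonneg zero_le two_ne_zero).1 hN1
    rw [hu', gn_mul, gn_C, hvc, one_mul] at hcu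
    rw [hw', gn_mul, gn_C, hvc, one_mul] at hcw
    exact ⟨hcu, hcw⟩
  exact ⟨u, w, huw.1, huw.2, by rw [h1, hsp], hN⟩

end

section

variable {K : Type*} [Field K] {Γ : Type*} [LinearOrderedCommGroupWithZero Γ] (v : Valuation K Γ)

theorem prod_four {α β : Type*} [CommMonoid β] (f : α → β) (A B C D : α) :
    (({A, B, C, D} : Multiset α).map f).prod = f A * (f B * (f C * f D)) := by
  simp only [Multiset.insert_eq_cons, Multiset.map_cons, Multiset.prod_cons,
    Multiset.map_singleton, Multiset.prod_singleton]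

theorem wP_fst (P : K × K) : (wP P).1 = P.1 := by unfold wP; rfl

theorem wP_snd (P : K × K) : (wP P).2 = -P.2 := by unfold wP; rfl

theorem redS_nsmul (S : Multiset (K × K)) (n : ℕ) : redS v (n • S) = n • redS v S := by
  induction n with
  | zero => rw [zero_smul, zero_smul, redS_zero]
  | succ n ih => rw [succ_nsmul, redS_add, ih, succ_nsmul]

/-- the degree of `w` -/
theorem deg_w (a : Fin (2 * 2 + 1) → K) {u w R : K[X]} {M : ℕ} (hR : R.natDegree = 4 * M)
    (hw : w ≠ 0) (hN : u ^ 2 - w ^ 2 * FF a = R) : 2 * w.natDegree + 5 < 4 * M := by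
  have hF : (FF a).natDegree = 2 * 2 + 1 := cra_FF_natDegree a
  have hF0 : FF a ≠ 0 := by
    intro h
    rw [h, natDegree_zero] at hF
    omega
  have e1 : (w ^ 2 * FF a).natDegree = 2 * w.natDegree + 5 := by
    rw [natDegree_mul (pow_ne_zero _ hw) hF0, natDegree_pow, hF]
  have e2 : u ^ 2 = R + w ^ 2 * FF a := by rw [← hN]; ring
  by_contra hc
  push Not at hc
  have hlt : R.natDegree < (w ^ 2 * FF a).natDegree := by
    rw [hR, e1]
    omega
  have e3 := congrArg natDegree e2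
  rw [natDegree_pow, natDegree_add_eq_right_of_natDegree_lt hlt, e1] at e3
  omega

end

/-- **The main lemma.** -/
theorem lemX {K : Type*} [Field K] [IsAlgClosed K] [CharZero K] {Γ : Type*}
    [LinearOrderedCommGroupWithZero Γ] (v : Valuation K Γ) (a : Fin (2 * 2 + 1) → K)
    [Fact (Function.Injective a)] (h2 : v 2 = 1) (ha : ∀ i, v (a i) ≤ 1)
    (hd : ∀ i j, i ≠ j → v (a i - a j) = 1) (P P' Q Q' : K × K) (hon : OnC a {P, P', Q, Q'})
    (hp : v P.1 ≤ 1) (hq : v Q.1 ≤ 1) (hb : v P.2 = 1) (hc : v Q.2 = 1)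
    (hbb : v (P'.2 - P.2) < 1) (hcc : v (Q'.2 - Q.2) < 1) (hpq : v (P.1 - Q.1) = 1)
    (hpp : P'.1 ≠ P.1) (hqq : Q'.1 ≠ Q.1)
    (hj : ∀ j : ℕ, 2 ≤ j → v (P'.1 - P.1) ^ (j - 1) < v (j : K))
    (hj' : ∀ j : ℕ, 2 ≤ j → v (Q'.1 - Q.1) ^ (j - 1) < v (j : K))
    (M : ℕ) (hM : 0 < M) (h : clS a (M • ({P', Q, wP P, wP Q'} : Multiset (K × K))) = 1) :
    False := by
  have hpi : v (P'.1 - P.1) < 1 := by
    have := hj 2 le_rfl
    rwa [Nat.cast_ofNat, h2, show 2 - 1 = 1 from rfl, pow_one] at this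
  have hqi : v (Q'.1 - Q.1) < 1 := by
    have := hj' 2 le_rfl
    rwa [Nat.cast_ofNat, h2, show 2 - 1 = 1 from rfl, pow_one] at this
  have hp' : v P'.1 ≤ 1 := by
    have e : P'.1 = (P'.1 - P.1) + P.1 := by ring
    rw [e]
    exact v.map_add_le hpi.le hp
  have hq' : v Q'.1 ≤ 1 := by
    have e : Q'.1 = (Q'.1 - Q.1) + Q.1 := by ring
    rw [e]
    exact v.map_add_le hqi.le hq
  have hb' : v P'.2 ≤ 1 := by
    have e : P'.2 = (P'.2 - P.2) + P.2 := by ring
    rw [e]
    exact v.map_add_le hbb.le hb.le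
  have hc' : v Q'.2 ≤ 1 := by
    have e : Q'.2 = (Q'.2 - Q.2) + Q.2 := by ring
    rw [e]
    exact v.map_add_le hcc.le hc.le
  have cP : P.2 ^ 2 = (FF a).eval P.1 := hon P (by simp)
  have cP' : P'.2 ^ 2 = (FF a).eval P'.1 := hon P' (by simp)
  have cQ : Q.2 ^ 2 = (FF a).eval Q.1 := hon Q (by simp)
  have cQ' : Q'.2 ^ 2 = (FF a).eval Q'.1 := hon Q' (by simp)
  have hon0 : OnC a (M • ({P', Q, wP P, wP Q'} : Multiset (K × K))) := by
    intro R hR
    have hR' := Multiset.mem_of_mem_nsmul hR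
    simp only [Multiset.insert_eq_cons, Multiset.mem_cons, Multiset.mem_singleton] at hR'
    rcases hR' with rfl | rfl | rfl | rfl
    · exact cP'
    · exact cQ
    · show (-P.2) ^ 2 = _
      rw [neg_sq]
      exact cP
    · show (-Q'.2) ^ 2 = _
      rw [neg_sq]
      exact cQ'
  have hint : ∀ R ∈ M • ({P', Q, wP P, wP Q'} : Multiset (K × K)), v R.1 ≤ 1 := by
    intro R hR
    have hR' := Multiset.mem_of_mem_nsmul hR
    simp only [Multiset.insert_eq_cons, Multiset.mem_cons, Multiset.mem_singleton] at hR'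
    rcases hR' with rfl | rfl | rfl | rfl
    · exact hp'
    · exact hq
    · exact hp
    · exact hq'
  obtain ⟨u, w, hu, hw, hprod, hN⟩ := norm_gen v ha _ hon0 hint h
  have hN' : u ^ 2 - w ^ 2 * FF a =
      ((X - C P'.1) * ((X - C Q.1) * ((X - C P.1) * (X - C Q'.1)))) ^ M := by
    rw [hN, Multiset.map_nsmul, Multiset.prod_nsmul, prod_four, wP_fst, wP_fst]
  have hprod' : Ideal.span {el (FF a) u w} = (pI (FF a) P'.1 P'.2 * (pI (FF a) Q.1 Q.2 *
      (pI (FF a) P.1 (-P.2) * pI (FF a) Q'.1 (-Q'.2)))) ^ M := by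
    rw [← hprod, Multiset.map_nsmul, Multiset.prod_nsmul, prod_four, wP_fst, wP_fst, wP_snd,
      wP_snd]
  have hmem0 : el (FF a) u w ∈ (pI (FF a) P'.1 P'.2 * (pI (FF a) Q.1 Q.2 *
      (pI (FF a) P.1 (-P.2) * pI (FF a) Q'.1 (-Q'.2)))) ^ M := by
    rw [← hprod']
    exact Ideal.mem_span_singleton_self _
  have hdeg : w ≠ 0 → 2 * w.natDegree + 5 < 4 * M := fun hw0 => by
    refine deg_w a ?_ hw0 hN'
    rw [natDegree_pow, natDegree_mul (X_sub_C_ne_zero _) (mul_ne_zero (X_sub_C_ne_zero _)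
      (mul_ne_zero (X_sub_C_ne_zero _) (X_sub_C_ne_zero _))), natDegree_mul (X_sub_C_ne_zero _)
      (mul_ne_zero (X_sub_C_ne_zero _) (X_sub_C_ne_zero _)), natDegree_mul (X_sub_C_ne_zero _)
      (X_sub_C_ne_zero _), natDegree_X_sub_C, natDegree_X_sub_C, natDegree_X_sub_C,
      natDegree_X_sub_C]
    ring
  -- `w` is zero modulo the maximal ideal
  have fra : Fact (Function.Injective (ra v a)) := ⟨ra_inj v a ha hd⟩
  have f2 : NeZero (2 : RF v) := two_ne v h2
  have hw1 : gn v w < 1 := by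
    have hmem := red_mem v ha _ hon0 u w hu hw
      (by rw [hprod]; exact Ideal.mem_span_singleton_self _)
    rw [redS_nsmul, Multiset.map_nsmul, Multiset.prod_nsmul] at hmem
    have e1 : (re v P'.1, re v P'.2) = (re v P.1, re v P.2) := by
      rw [(re_eq_iff v hp' hp).2 hpi, (re_eq_iff v hb' hb.le).2 hbb]
    have e2 : (re v Q'.1, re v Q'.2) = (re v Q.1, re v Q.2) := by
      rw [(re_eq_iff v hq' hq).2 hqi, (re_eq_iff v hc' hc.le).2 hcc]
    have e3 : redS v ({P', Q, wP P, wP Q'} : Multiset (K × K)) =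
        {(re v P.1, re v P.2), (re v Q.1, re v Q.2), (re v P.1, -re v P.2),
          (re v Q.1, -re v Q.2)} := by
      have h0 : ∀ A B C D : K × K, ({A, B, C, D} : Multiset (K × K)) =
          A ::ₘ B ::ₘ C ::ₘ D ::ₘ 0 := fun _ _ _ _ => rfl
      have h0' : ∀ A B C D : RF v × RF v, ({A, B, C, D} : Multiset (RF v × RF v)) =
          A ::ₘ B ::ₘ C ::ₘ D ::ₘ 0 := fun _ _ _ _ => rfl
      rw [h0, h0', redS_cons_of v hp', redS_cons_of v hq,
        redS_cons_of v (P := wP P) (by rw [wP_fst]; exact hp),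
        redS_cons_of v (P := wP Q') (by rw [wP_fst]; exact hq'), redS_zero, e1, wP_fst, wP_snd,
        wP_fst, wP_snd, re_neg, re_neg, (Prod.mk.inj e2).1, (Prod.mk.inj e2).2]
    have cPr := red_onC v ha cP hp
    have cQr := red_onC v ha cQ hq
    set G : (RF v)[X] := (X - C (re v P.1)) * (X - C (re v Q.1)) with hG
    have e4 : ((({(re v P.1, re v P.2), (re v Q.1, re v Q.2), (re v P.1, -re v P.2),
          (re v Q.1, -re v Q.2)} : Multiset (RF v × RF v))).map
          fun P => pI (FF (ra v a)) P.1 P.2).prod =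
        Ideal.span {el (FF (ra v a)) G 0} := by
      have h6 : pI (FF (ra v a)) (re v P.1) (re v P.2) *
          (pI (FF (ra v a)) (re v Q.1) (re v Q.2) * (pI (FF (ra v a)) (re v P.1) (-re v P.2) *
            pI (FF (ra v a)) (re v Q.1) (-re v Q.2))) =
          (pI (FF (ra v a)) (re v P.1) (re v P.2) * pI (FF (ra v a)) (re v P.1) (-re v P.2)) *
          (pI (FF (ra v a)) (re v Q.1) (re v Q.2) * pI (FF (ra v a)) (re v Q.1) (-re v Q.2)) := by
        ring
      rw [prod_four, h6, pI_conj (ra v a) cPr, pI_conj (ra v a) cQr,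
        Ideal.span_singleton_mul_span_singleton, el_mul]
      simp only [mul_zero, zero_mul, add_zero, hG]
    rw [e3, e4, Ideal.span_singleton_pow, Ideal.mem_span_singleton] at hmem
    obtain ⟨t, ht⟩ := hmem
    obtain ⟨s, r, rfl⟩ := el_surj _ t
    rw [← HK.algebraMap_eq, ← map_pow, HK.algebraMap_eq, el_mul] at ht
    obtain ⟨_, h7⟩ := el_inj _ ht
    rw [zero_mul, add_zero] at h7
    by_contra hcon
    have hw0' : rd v w ≠ 0 := by
      rw [Ne, rd_eq_zero v hw]
      exact hcon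
    have hw0 : w ≠ 0 := by
      rintro rfl
      rw [gn_zero] at hcon
      exact hcon zero_lt_one
    have h8 := natDegree_le_of_dvd (Dvd.intro _ h7.symm) hw0'
    rw [natDegree_pow, hG, natDegree_mul (X_sub_C_ne_zero _) (X_sub_C_ne_zero _),
      natDegree_X_sub_C, natDegree_X_sub_C] at h8
    have h9 := rd_natDegree_le v w
    have h10 := hdeg hw0
    omega
  -- the two halves
  have hMK : (M : K) ≠ 0 := Nat.cast_ne_zero.2 hM.ne'
  have hqp : v (Q.1 - P.1) = 1 := by rw [Valuation.map_sub_swap, hpq]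
  have r1 : Pr v ((w.comp (X + C P.1) : K[X]) : PowerSeries K) (M - 1)
      (v ((M : K) * (P'.1 - P.1))) := by
    refine lx_half a h2 ha hM hMK hp hb cP hpq hqi hpp hj u w hu hw1 ?_ ?_
    · rw [hN']
      congr 1
      ring
    · refine Ideal.pow_right_mono ?_ M hmem0
      exact Ideal.mul_le_right.trans (Ideal.mul_le_right.trans Ideal.mul_le_left)
  have r2 : Pr v ((w.comp (X + C Q.1) : K[X]) : PowerSeries K) (M - 1)
      (v ((M : K) * (Q'.1 - Q.1))) := by
    refine lx_half a (b := -Q.2) h2 ha hM hMK hq (by rw [Valuation.map_neg, hc])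
      (by rw [neg_sq, cQ]) hqp hpi hqq hj' u w hu hw1 ?_ ?_
    · rw [hN']
      congr 1
      ring
    · rw [neg_neg]
      refine Ideal.pow_right_mono ?_ M hmem0
      exact Ideal.mul_le_right.trans Ideal.mul_le_left
  have hw0 : w ≠ 0 := by
    rintro rfl
    have h3 := r1.2
    rw [zero_comp, Polynomial.coe_zero, map_zero, map_zero] at h3
    exact (Valuation.ne_zero_iff v).2 (mul_ne_zero hMK (sub_ne_zero.2 hpp)) h3.symm
  have hlt : ∀ {p π : K}, v p ≤ 1 → Pr v ((w.comp (X + C p) : K[X]) : PowerSeries K) (M - 1)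
      (v ((M : K) * π)) → ∀ n < M - 1, v ((w.comp (X + C p)).coeff n) < gn v w := by
    intro p π hp hr n hn
    have h3 := hr.1 n hn
    rw [← hr.2, Polynomial.coeff_coe, Polynomial.coeff_coe] at h3
    refine h3.trans_le ?_
    rw [← gn_taylor v hp w]
    exact le_gn v _ _
  have h11 := deg_two v hw0 hp hq hpq (hlt hp r1) (hlt hq r2)
  have h12 := hdeg hw0
  omega

end GJ
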