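import Pool.Agent.H84.GJ.Loc
import Pool.Agent.H98.GJ.Red

/-!
# GJ, LxA: power series with integral coefficients: square roots, orders modulo the maximal ideal
-/

set_option autoImplicit false

namespace GJ

open PowerSeries

section sqrt

variable {K : Type*} [Field K]

/-- The coefficients of a square root. -/
noncomputable def sqc (f : ℕ → K) (b : K) : ℕ → K
  | 0 => b
  | n + 1 => (f (n + 1) - ∑ i : Fin n, sqc f b (i + 1) * sqc f b (n - i)) / (2 * b)
termination_by n => n
decreasing_by
  all_goals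
    have := i.2
    omega

variable {Γ : Type*} [LinearOrderedCommGroupWithZero Γ] (v : Valuation K Γ)

/-- A power series with integral coefficients whose constant coefficient is the square of a unit is a square. -/
theorem exists_sqrt (h2 : v 2 = 1) (f : PowerSeries K) (hf : ∀ n, v (coeff n f) ≤ 1) (b : K)
    (hb : v b = 1) (hfb : coeff 0 f = b ^ 2) :
    ∃ Y : PowerSeries K, Y ^ 2 = f ∧ coeff 0 Y = b ∧ ∀ n, v (coeff n Y) ≤ 1 := by
  have hvb : v (2 * b) = 1 := by rw [map_mul, h2, hb, one_mul]
  have h2b : 2 * b ≠ 0 := by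
    intro h
    rw [h, map_zero] at hvb
    exact zero_ne_one hvb
  have h0 : sqc (fun n => coeff n f) b 0 = b := by rw [sqc]
  have hs : ∀ n, sqc (fun n => coeff n f) b (n + 1) = (coeff (n + 1) f -
      ∑ i : Fin n, sqc (fun n => coeff n f) b (i + 1) * sqc (fun n => coeff n f) b (n - i)) /
        (2 * b) := fun n => by rw [sqc]
  refine ⟨PowerSeries.mk (sqc (fun n => coeff n f) b), ?_, ?_, ?_⟩
  · ext n
    rw [sq, coeff_mul, Finset.Nat.sum_antidiagonal_eq_sum_range_succ_mk]
    simp only [coeff_mk]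
    cases n with
    | zero =>
      show ∑ x ∈ Finset.range 1, sqc (fun n => coeff n f) b x * sqc (fun n => coeff n f) b (0 - x) = _
      rw [Finset.sum_range_one, Nat.sub_zero, h0, hfb, sq]
    | succ n =>
      rw [Finset.sum_range_succ, Finset.sum_range_succ', Nat.sub_self, Nat.sub_zero, h0, hs n]
      have e1 : ∑ i ∈ Finset.range n, sqc (fun n => coeff n f) b (i + 1) *
          sqc (fun n => coeff n f) b (n + 1 - (i + 1)) =
          ∑ i : Fin n, sqc (fun n => coeff n f) b (i + 1) *
            sqc (fun n => coeff n f) b (n - i) := by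
        rw [Finset.sum_range]
        refine Finset.sum_congr rfl fun i _ => ?_
        rw [Nat.add_sub_add_right]
      rw [e1]
      generalize (∑ i : Fin n, sqc (fun n => coeff n f) b (i + 1) *
        sqc (fun n => coeff n f) b (n - i)) = s
      generalize coeff (n + 1) f = c
      have e2 : b * ((c - s) / (2 * b)) + ((c - s) / (2 * b)) * b =
          ((c - s) / (2 * b)) * (2 * b) := by ring
      have e3 : (c - s) / (2 * b) * (2 * b) = c - s := div_mul_cancel₀ _ h2b
      rw [add_assoc, e2, e3]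
      ring
  · rw [coeff_mk, h0]
  · intro n
    rw [coeff_mk]
    induction n using Nat.strong_induction_on with
    | _ n ih =>
      cases n with
      | zero => rw [h0, hb]
      | succ n =>
        rw [hs n, map_div₀, hvb, div_one]
        refine v.map_sub_le (hf _) (v.map_sum_le fun i _ => ?_)
        have := i.2
        rw [map_mul]
        exact mul_le_one' (ih _ (by omega)) (ih _ (by omega))

end sqrt

section orders

variable {K : Type*} [Field K] {Γ : Type*} [LinearOrderedCommGroupWithZero Γ] {v : Valuation K Γ}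

theorem int_mul {A B : PowerSeries K} (hA : ∀ n, v (coeff n A) ≤ 1)
    (hB : ∀ n, v (coeff n B) ≤ 1) (n : ℕ) : v (coeff n (A * B)) ≤ 1 := by
  rw [coeff_mul]
  refine v.map_sum_le fun p _ => ?_
  rw [map_mul]
  exact mul_le_one' (hA _) (hB _)

theorem pr_mul_int {A B : PowerSeries K} {N N' : ℕ} (hA : ∀ n, v (coeff n A) ≤ 1)
    (hB : ∀ n, v (coeff n B) ≤ 1) (h : Pr v A N 1) (h' : Pr v B N' 1) :
    Pr v (A * B) (N + N') 1 := by
  have key : ∀ i j, (i < N ∨ j < N') → v (coeff i A * coeff j B) < 1 := by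
    rintro i j (hi | hj)
    · rw [map_mul]
      exact lt_of_le_of_lt (mul_le_of_le_one_right zero_le (hB j)) (h.1 i hi)
    · rw [map_mul]
      exact lt_of_le_of_lt (mul_le_of_le_one_left zero_le (hA i)) (h'.1 j hj)
  constructor
  · intro n hn
    rw [coeff_mul]
    refine v.map_sum_lt one_ne_zero fun p hp => key _ _ ?_
    have := Finset.HasAntidiagonal.mem_antidiagonal.1 hp
    omega
  · rw [coeff_mul]
    have hmem : (N, N') ∈ Finset.HasAntidiagonal.antidiagonal (N + N') := Finset.HasAntidiagonal.mem_antidiagonal.2 rfl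
    rw [← Finset.add_sum_erase _ _ hmem]
    have h1 : v (coeff N A * coeff N' B) = 1 := by rw [map_mul, h.2, h'.2, one_mul]
    have h2 : v (∑ x ∈ (Finset.HasAntidiagonal.antidiagonal (N + N')).erase (N, N'),
        coeff x.1 A * coeff x.2 B) < 1 := by
      refine v.map_sum_lt one_ne_zero fun p hp => key _ _ ?_
      obtain ⟨hp1, hp2⟩ := Finset.mem_erase.1 hp
      have := Finset.HasAntidiagonal.mem_antidiagonal.1 hp2
      by_contra hc
      push Not at hc
      exact hp1 (Prod.ext (by omega) (by omega))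
    rw [Valuation.map_add_eq_of_lt_left v (by rw [h1]; exact h2), h1]

theorem pr_pow_int {A : PowerSeries K} {N : ℕ} (hA : ∀ n, v (coeff n A) ≤ 1) (h : Pr v A N 1)
    (M : ℕ) : Pr v (A ^ M) (M * N) 1 ∧ ∀ n, v (coeff n (A ^ M)) ≤ 1 := by
  induction M with
  | zero =>
    rw [pow_zero, zero_mul]
    refine ⟨⟨fun n hn => absurd hn (Nat.not_lt_zero n), by rw [coeff_zero_one, map_one]⟩, ?_⟩
    intro n
    rw [coeff_one]
    split_ifs
    · rw [map_one]
    · rw [map_zero]
      exact zero_le_one
  | succ M ih =>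
    rw [pow_succ, Nat.succ_mul]
    exact ⟨pr_mul_int ih.2 hA ih.1 h, int_mul ih.2 hA⟩

theorem exists_pr {A : PowerSeries K} (hA : ∀ n, v (coeff n A) ≤ 1)
    (h : ∃ n, v (coeff n A) = 1) : ∃ N, Pr v A N 1 := by
  classical
  exact ⟨Nat.find h, fun n hn => lt_of_le_of_ne (hA n) (Nat.find_min h hn), Nat.find_spec h⟩

theorem pr_unique {A : PowerSeries K} {N N' : ℕ} (h : Pr v A N 1) (h' : Pr v A N' 1) :
    N = N' := by
  by_contra hne
  rcases Nat.lt_or_gt_of_ne hne with h1 | h1
  · exact absurd h.2 (h'.1 N h1).ne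
  · exact absurd h'.2 (h.1 N' h1).ne

/-- If `U ^ 2 = A + B`, `A` of order `2 M` modulo the maximal ideal and `B` zero modulo the maximal ideal, then `U` has
order `M`. -/
theorem pr_sq {U A B : PowerSeries K} {M : ℕ} (hU : ∀ n, v (coeff n U) ≤ 1)
    (h : U ^ 2 = A + B) (hA : Pr v A (2 * M) 1) (hB : ∀ n, v (coeff n B) < 1) :
    v (coeff M U) = 1 := by
  have h1 : Pr v (U ^ 2) (2 * M) 1 := by
    rw [h]
    refine ⟨fun n hn => ?_, ?_⟩
    · rw [map_add]
      exact v.map_add_lt (hA.1 n hn) (hB n)
    · rw [map_add, Valuation.map_add_eq_of_lt_left v (by rw [hA.2]; exact hB _), hA.2]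
  have h2 : ∃ n, v (coeff n U) = 1 := by
    by_contra hc
    push Not at hc
    have h3 : ∀ n, v (coeff n U) < 1 := fun n => lt_of_le_of_ne (hU n) (hc n)
    have h4 : v (coeff (2 * M) (U ^ 2)) < 1 := by
      rw [sq, coeff_mul]
      refine v.map_sum_lt one_ne_zero fun p _ => ?_
      rw [map_mul]
      exact lt_of_le_of_lt (mul_le_of_le_one_right zero_le (hU _)) (h3 _)
    exact absurd h1.2 h4.ne
  obtain ⟨N, hN⟩ := exists_pr hU h2
  have h5 := (pr_pow_int hU hN 2).1
  have h6 := pr_unique h1 h5
  have h7 : M = N := by omega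
  rw [h7]
  exact hN.2

end orders

end GJ
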