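import Pool.Agent.H88.GJ.LxA

/-!
# GJ, LxB: one half of the main lemma

`z = u + w y` vanishes at `(p, -b)` to order `M`, `u ^ 2 - w ^ 2 F = ((x - p) (x - p') (x - q) (x - q')) ^ M`, `w` zero modulo
the maximal ideal: the coefficients of `w (X + p)` of index `< M - 1` have value `< v (M (p' - p))`, the one of index
`M - 1` has this value.
-/

set_option autoImplicit false

namespace GJ

open Polynomial HK

section ev

variable {K : Type*} [Field K]

/-- The expansion of functions at the point `(p, Y 0)` in powers of `x - p`. -/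
noncomputable def evS (F : K[X]) (p : K) (Y : PowerSeries K)
    (h : Y ^ 2 = ((F.comp (X + C p) : K[X]) : PowerSeries K)) : CR F →+* PowerSeries K :=
  AdjoinRoot.lift ((coeToPowerSeries.ringHom (R := K)).comp (compRingHom (X + C p))) Y (by
    rw [eval₂_sub, eval₂_pow, eval₂_X, eval₂_C, h]
    exact sub_self _)

theorem evS_el (F : K[X]) (p : K) (Y : PowerSeries K)
    (h : Y ^ 2 = ((F.comp (X + C p) : K[X]) : PowerSeries K)) (u w : K[X]) :
    evS F p Y h (el F u w) = ((u.comp (X + C p) : K[X]) : PowerSeries K) +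
      ((w.comp (X + C p) : K[X]) : PowerSeries K) * Y := by
  unfold el evS
  rw [map_add, map_mul, AdjoinRoot.lift_of, AdjoinRoot.lift_of, AdjoinRoot.lift_root]
  rfl

/-- A function in the `M`-th power of the ideal of the point has order at least `M`. -/
theorem ev_pow (F : K[X]) (p y : K) (Y : PowerSeries K)
    (h : Y ^ 2 = ((F.comp (X + C p) : K[X]) : PowerSeries K)) (h0 : PowerSeries.coeff 0 Y = y)
    (M : ℕ) (u w : K[X]) (hz : el F u w ∈ pI F p y ^ M) :
    PowerSeries.X ^ M ∣ ((u.comp (X + C p) : K[X]) : PowerSeries K) +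
      ((w.comp (X + C p) : K[X]) : PowerSeries K) * Y := by
  rw [← evS_el F p Y h]
  have h1 : Ideal.map (evS F p Y h) (pI F p y) ≤ Ideal.span {PowerSeries.X} := by
    rw [Ideal.map_le_iff_le_comap]
    unfold pI
    rw [Ideal.span_le]
    rintro z (rfl | rfl)
    · rw [SetLike.mem_coe, Ideal.mem_comap, evS_el, Ideal.mem_span_singleton]
      rw [sub_comp, X_comp, C_comp, zero_comp, Polynomial.coe_zero, zero_mul, add_zero,
        add_sub_cancel_right, Polynomial.coe_X]
    · rw [SetLike.mem_coe, Ideal.mem_comap, evS_el, Ideal.mem_span_singleton,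
        PowerSeries.X_dvd_iff]
      rw [C_comp, one_comp, Polynomial.coe_one, one_mul, Polynomial.coe_C, map_add,
        PowerSeries.constantCoeff_C, ← PowerSeries.coeff_zero_eq_constantCoeff_apply, h0,
        neg_add_cancel]
  have h2 : evS F p Y h (el F u w) ∈ Ideal.span {PowerSeries.X} ^ M := by
    have h3 := Ideal.mem_map_of_mem (evS F p Y h) hz
    rw [Ideal.map_pow] at h3
    exact Ideal.pow_right_mono h1 M h3
  rw [Ideal.span_singleton_pow] at h2
  exact Ideal.mem_span_singleton.1 h2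

end ev

section half

variable {K : Type*} [Field K] {Γ : Type*} [LinearOrderedCommGroupWithZero Γ] {v : Valuation K Γ}
  {g : ℕ} (a : Fin (2 * g + 1) → K)

theorem coe_int {f : K[X]} (hf : gn v f ≤ 1) (n : ℕ) :
    v (PowerSeries.coeff n (f : PowerSeries K)) ≤ 1 := by
  rw [Polynomial.coeff_coe]
  exact (le_gn v f n).trans hf

theorem lx_half (h2 : v 2 = 1) (ha : ∀ i, v (a i) ≤ 1) {p p' q q' b : K} {M : ℕ} (hM : 0 < M)
    (hMK : (M : K) ≠ 0) (hp : v p ≤ 1) (hb : v b = 1) (hPb : b ^ 2 = (FF a).eval p)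
    (hpq : v (p - q) = 1) (hqq : v (q' - q) < 1) (hpp : p' ≠ p)
    (hj : ∀ j : ℕ, 2 ≤ j → v (p' - p) ^ (j - 1) < v (j : K)) (u w : K[X]) (hu : gn v u ≤ 1)
    (hw : gn v w < 1)
    (hN : u ^ 2 - w ^ 2 * FF a = ((X - C p) * (X - C p') * ((X - C q) * (X - C q'))) ^ M)
    (hz : el (FF a) u w ∈ pI (FF a) p (-b) ^ M) :
    Pr v ((w.comp (X + C p) : K[X]) : PowerSeries K) (M - 1) (v ((M : K) * (p' - p))) := by
  have hF : gn v ((FF a).comp (X + C p)) ≤ 1 := by
    rw [gn_taylor v hp]
    exact (gn_FF v ha).le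
  have hpi : v (p' - p) < 1 := by
    have := hj 2 le_rfl
    rwa [Nat.cast_ofNat, h2, show 2 - 1 = 1 from rfl, pow_one] at this
  have hu1 : gn v (u.comp (X + C p)) ≤ 1 := by rwa [gn_taylor v hp]
  have hw1 : gn v (w.comp (X + C p)) < 1 := by rwa [gn_taylor v hp]
  obtain ⟨Y, hY, hY0, hYi⟩ := exists_sqrt v h2 ((((FF a).comp (X + C p) : K[X])) : PowerSeries K)
    (coe_int hF) b hb (by
      rw [Polynomial.coeff_coe, coeff_zero_eq_eval_zero, eval_comp, eval_add, eval_X, eval_C,
        zero_add, hPb])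
  have hYn : (-Y) ^ 2 = ((((FF a).comp (X + C p) : K[X])) : PowerSeries K) := by
    rw [neg_sq, hY]
  have hdvd := ev_pow (FF a) p (-b) (-Y) hYn (by rw [map_neg, hY0]) M u w hz
  set U : PowerSeries K := ((u.comp (X + C p) : K[X]) : PowerSeries K) with hU
  set W : PowerSeries K := ((w.comp (X + C p) : K[X]) : PowerSeries K) with hW
  have hUi : ∀ n, v (PowerSeries.coeff n U) ≤ 1 := coe_int hu1
  have hWi : ∀ n, v (PowerSeries.coeff n W) < 1 := by
    intro n
    rw [hW, Polynomial.coeff_coe]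
    exact lt_of_le_of_lt (le_gn v _ n) hw1
  set V : PowerSeries K :=
    (((X + C (p - q)) * (X + C (p - q')) : K[X]) : PowerSeries K) ^ M with hV
  have hq' : v (p - q') = 1 := by
    have e : p - q' = (p - q) - (q' - q) := by ring
    rw [e, Valuation.map_sub_eq_of_lt_left v (by rw [hpq]; exact hqq), hpq]
  have hV1 : gn v ((X + C (p - q)) * (X + C (p - q')) : K[X]) ≤ 1 := by
    rw [gn_mul, ← sub_neg_eq_add, ← sub_neg_eq_add, ← C_neg, ← C_neg, gn_X_sub_C v, gn_X_sub_C v,
      one_mul]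
    · rw [Valuation.map_neg, hq']
    · rw [Valuation.map_neg, hpq]
  have hV0 : Pr v (((X + C (p - q)) * (X + C (p - q')) : K[X]) : PowerSeries K) 0 1 := by
    refine ⟨fun n hn => absurd hn (Nat.not_lt_zero n), ?_⟩
    rw [Polynomial.coeff_coe, coeff_zero_eq_eval_zero, eval_mul, eval_add, eval_add, eval_X,
      eval_C, eval_C, zero_add, zero_add, map_mul, hpq, hq', one_mul]
  obtain ⟨hV2, hVi⟩ := pr_pow_int (coe_int hV1) hV0 M
  rw [← hV, mul_zero] at hV2
  rw [← hV] at hVi
  have hprod : (U + W * Y) * (U - W * Y) =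
      PowerSeries.X ^ M * (PowerSeries.X - PowerSeries.C (p' - p)) ^ M * V := by
    have e1 : (U + W * Y) * (U - W * Y) = U ^ 2 - W ^ 2 * Y ^ 2 := by ring
    have e2 := congrArg (fun f : K[X] => ((f.comp (X + C p) : K[X]) : PowerSeries K)) hN
    simp only [sub_comp, mul_comp, pow_comp, X_comp, C_comp] at e2
    rw [e1, hY, hU, hW, hV]
    rw [Polynomial.coe_sub, Polynomial.coe_mul, Polynomial.coe_pow, Polynomial.coe_pow,
      Polynomial.coe_pow] at e2
    rw [e2, ← mul_pow, ← mul_pow]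
    congr 1
    have e3 : (X + C p - C p : K[X]) = X := add_sub_cancel_right _ _
    have e4 : (X + C p - C p' : K[X]) = X - C (p' - p) := by
      rw [C_sub]
      ring
    have e5 : ∀ q : K, (X + C p - C q : K[X]) = X + C (p - q) := by
      intro q
      rw [C_sub]
      ring
    rw [e3, e4, e5, e5]
    rw [Polynomial.coe_mul, Polynomial.coe_mul, Polynomial.coe_sub, Polynomial.coe_X,
      Polynomial.coe_C]
  have hX0 : Pr v (PowerSeries.X : PowerSeries K) 1 1 := by
    refine ⟨fun n hn => ?_, ?_⟩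
    · have : n = 0 := by omega
      rw [this, PowerSeries.coeff_zero_X, map_zero]
      exact zero_lt_one
    · rw [PowerSeries.coeff_one_X, map_one]
  have hXi : ∀ n, v (PowerSeries.coeff n (PowerSeries.X : PowerSeries K)) ≤ 1 := by
    intro n
    rw [PowerSeries.coeff_X]
    split_ifs
    · rw [map_one]
    · rw [map_zero]
      exact zero_le_one
  have hXp0 : Pr v (PowerSeries.X - PowerSeries.C (p' - p) : PowerSeries K) 1 1 := by
    refine ⟨fun n hn => ?_, ?_⟩
    · have : n = 0 := by omega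
      rw [this, map_sub, PowerSeries.coeff_zero_X, PowerSeries.coeff_zero_C, zero_sub,
        Valuation.map_neg]
      exact hpi
    · rw [map_sub, PowerSeries.coeff_one_X, PowerSeries.coeff_C, if_neg one_ne_zero, sub_zero,
        map_one]
  have hXpi : ∀ n, v (PowerSeries.coeff n
      (PowerSeries.X - PowerSeries.C (p' - p) : PowerSeries K)) ≤ 1 := by
    intro n
    rw [map_sub]
    refine v.map_sub_le (hXi n) ?_
    rw [PowerSeries.coeff_C]
    split_ifs
    · exact hpi.le
    · rw [map_zero]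
      exact zero_le_one
  obtain ⟨k1, k1i⟩ := pr_pow_int hXi hX0 M
  obtain ⟨k2, k2i⟩ := pr_pow_int hXpi hXp0 M
  have k3 := pr_mul_int k1i k2i k1 k2
  have k3i := int_mul (v := v) k1i k2i
  have k4 := pr_mul_int k3i hVi k3 hV2
  rw [← hprod, mul_one, add_zero, ← two_mul] at k4
  have hWY : ∀ n, v (PowerSeries.coeff n (W * Y)) < 1 := by
    intro n
    rw [PowerSeries.coeff_mul]
    refine v.map_sum_lt one_ne_zero fun x _ => ?_
    rw [map_mul]
    exact lt_of_le_of_lt (mul_le_of_le_one_right zero_le (hYi _)) (hWi _)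
  have hWY2 : ∀ n, v (PowerSeries.coeff n ((W * Y) ^ 2)) < 1 := by
    intro n
    rw [sq, PowerSeries.coeff_mul]
    refine v.map_sum_lt one_ne_zero fun x _ => ?_
    rw [map_mul]
    exact lt_of_le_of_lt (mul_le_of_le_one_right zero_le (hWY _).le) (hWY _)
  have hUM : v (PowerSeries.coeff M U) = 1 :=
    pr_sq hUi (show U ^ 2 = (U + W * Y) * (U - W * Y) + (W * Y) ^ 2 by ring) k4 hWY2
  refine loc U W Y V (p' - p) M hM (sub_ne_zero.2 hpp) hMK hj h2 hYi (by rw [hY0, hb]) hVi
    hV2.2 hWi hUi hUM ?_ hprod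
  rw [← PowerSeries.X_pow_dvd_iff]
  have e : U - W * Y = U + W * -Y := by ring
  rw [e]
  exact hdvd

end half

end GJ
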